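import Mathlib
set_option autoImplicit false
namespace TH160
open Polynomial

noncomputable section

/-! ## Surfaces in `P² × P¹` -/

/-- bidegrees of the coordinates `(x₀ : x₁ : x₂ ; s₀ : s₁)` of `P² × P¹` -/
def bideg : Fin 3 ⊕ Fin 2 → ℕ × ℕ := Sum.elim (fun _ => (1, 0)) (fun _ => (0, 1))

/-- the degree of irrationality of a field extension `L / ℂ` of transcendence degree two:
the least degree `[L : ℂ(u, v)]`, `u, v` algebraically independent over `ℂ` -/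
def irr (L : Type) [Field L] [Algebra ℂ L] : ℕ :=
  sInf {n | ∃ u v : L, AlgebraicIndependent ℂ ![u, v] ∧
    Module.Finite (IntermediateField.adjoin ℂ {u, v}) L ∧
    Module.finrank (IntermediateField.adjoin ℂ {u, v}) L = n}

/-- `L` is the function field of the integral surface `{f = 0}` in `P² × P¹` over `ℂ`, and `x`
are the bihomogeneous coordinates of its generic point. -/
structure IsFunctionField (f : MvPolynomial (Fin 3 ⊕ Fin 2) ℂ) (L : Type) [Field L] [Algebra ℂ L]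
    (x : Fin 3 ⊕ Fin 2 → L) : Prop where
  zero_iff : ∀ (n : ℕ × ℕ) (G : MvPolynomial (Fin 3 ⊕ Fin 2) ℂ),
    MvPolynomial.IsWeightedHomogeneous bideg G n → (MvPolynomial.aeval x G = 0 ↔ f ∣ G)
  surj : ∀ z : L, ∃ (n : ℕ × ℕ) (G H : MvPolynomial (Fin 3 ⊕ Fin 2) ℂ),
    MvPolynomial.IsWeightedHomogeneous bideg G n ∧ MvPolynomial.IsWeightedHomogeneous bideg H n ∧
    MvPolynomial.aeval x H ≠ 0 ∧ z = MvPolynomial.aeval x G / MvPolynomial.aeval x H

/-- Jacobian criterion: the surface `{f = 0}` in `P² × P¹` over `ℂ` is smooth -/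
def IsSmoothSurface (f : MvPolynomial (Fin 3 ⊕ Fin 2) ℂ) : Prop :=
  ∀ a : Fin 3 ⊕ Fin 2 → ℂ, (∃ i, a (Sum.inl i) ≠ 0) → (∃ j, a (Sum.inr j) ≠ 0) →
    MvPolynomial.eval a f = 0 → ∃ k, MvPolynomial.eval a (MvPolynomial.pderiv k f) ≠ 0

/-- coordinates -/
abbrev x0 : MvPolynomial (Fin 3 ⊕ Fin 2) ℂ := MvPolynomial.X (Sum.inl 0)
abbrev x1 : MvPolynomial (Fin 3 ⊕ Fin 2) ℂ := MvPolynomial.X (Sum.inl 1)
abbrev x2 : MvPolynomial (Fin 3 ⊕ Fin 2) ℂ := MvPolynomial.X (Sum.inl 2)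
abbrev s0 : MvPolynomial (Fin 3 ⊕ Fin 2) ℂ := MvPolynomial.X (Sum.inr 0)
abbrev s1 : MvPolynomial (Fin 3 ⊕ Fin 2) ℂ := MvPolynomial.X (Sum.inr 1)

/-- the equation of the surface `X_b` in `P² × P¹`, of bidegree `(3, 4)` -/
def Feq (b : ℂ) : MvPolynomial (Fin 3 ⊕ Fin 2) ℂ :=
  (s0 ^ 2 + MvPolynomial.C (2 * b) * s0 * s1 + 4 * s1 ^ 2) * (s0 ^ 2 - 2 * s0 * s1 + 4 * s1 ^ 2)
      * x0 ^ 3
    + 2 * s0 * s1 * (s0 ^ 2 - MvPolynomial.C (2 * b) * s0 * s1 + 4 * s1 ^ 2) * x1 ^ 3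
    + (s0 ^ 2 + 4 * s1 ^ 2) * (s0 ^ 2 + 2 * s0 * s1 + 4 * s1 ^ 2) * x2 ^ 3

/-- the parameter space: the affine line without the five points `0, 1, -1, 2, -2` -/
def Tset : Set ℂ := {b | b ≠ 0 ∧ b ^ 2 ≠ 1 ∧ b ^ 2 ≠ 4}

/-! ## The coefficients as polynomials in the affine coordinate of `P¹` -/

def pA (b : ℂ) : ℂ[X] := (X ^ 2 + C (2 * b) * X + 4) * (X ^ 2 - 2 * X + 4)
def pB (b : ℂ) : ℂ[X] := 2 * X * (X ^ 2 - C (2 * b) * X + 4)
def pC : ℂ[X] := (X ^ 2 + 4) * (X ^ 2 + 2 * X + 4)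

/-- separable and pairwise coprime -/
structure Nice (A B C : ℂ[X]) : Prop where
  sA : A.Separable
  sB : B.Separable
  sC : C.Separable
  cAB : IsCoprime A B
  cBC : IsCoprime B C
  cCA : IsCoprime C A

/-- the forms of degree four attached to `A`, `B`, `C` are squarefree and pairwise coprime -/
structure Nice4 (A B C : ℂ[X]) : Prop where
  dA : A.natDegree ≤ 4
  dB : B.natDegree ≤ 4
  dC : C.natDegree ≤ 4
  fin : Nice A B C
  inf : Nice (A.reflect 4) (B.reflect 4) (C.reflect 4)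

/-! ## Derivations -/

section
variable {L : Type} [Field L] [Algebra ℂ L]

/-- the bracket of two elements: the function `da ∧ db / du ∧ dv` -/
def br (D1 D2 : Derivation ℂ L L) (a b : L) : L := D1 a * D2 b - D2 a * D1 b

/-- `D1`, `D2` are the derivations dual to `u`, `v` -/
structure Dual (D1 D2 : Derivation ℂ L L) (u v : L) : Prop where
  h11 : D1 u = 1
  h12 : D1 v = 0
  h21 : D2 u = 0
  h22 : D2 v = 1
  all : ∀ (D : Derivation ℂ L L) (x : L), D x = D u * D1 x + D v * D2 x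

/-- `h du ∧ dv` is regular at every valuation ring of `L` over `ℂ` -/
def Reg (D1 D2 : Derivation ℂ L L) (h : L) : Prop :=
  ∀ O : ValuationSubring L, (∀ c : ℂ, algebraMap ℂ L c ∈ O) →
    ∃ a ∈ O, ∃ b ∈ O, ∃ c ∈ O, h = c * br D1 D2 a b

/-- `h du ∧ dv` is the two-form `dT ∧ (Y dZ - Z dY) / (3 A(T) X²) = ...` attached to the point
`(X : Y : Z)` of the cubic `A(T) X³ + B(T) Y³ + C(T) Z³ = 0` -/
structure IsForm (A B C : ℂ[X]) (D1 D2 : Derivation ℂ L L) (T X Y Z h : L) : Prop where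
  e1 : 3 * aeval T A * X ^ 2 * h = Y * br D1 D2 T Z - Z * br D1 D2 T Y
  e2 : 3 * aeval T B * Y ^ 2 * h = Z * br D1 D2 T X - X * br D1 D2 T Z
  e3 : 3 * aeval T C * Z ^ 2 * h = X * br D1 D2 T Y - Y * br D1 D2 T X

end

/-! ## Hesse pencil -/

/-- the Hesse cubic with parameter `m` has a map to the Fermat cubic compatible with the
functions `F` modulo cubes -/
def Good (w m : ℂ) : Prop :=
  ∀ (L : Type) [Field L] [Algebra ℂ L] (x y : L),
    1 + x ^ 3 + y ^ 3 = 3 * algebraMap ℂ L m * x * y → x ∉ Set.range (algebraMap ℂ L) →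
    ∃ x' y' G : L, 1 + x' ^ 3 + y' ^ 3 = 0 ∧ x' ∉ Set.range (algebraMap ℂ L) ∧ G ≠ 0 ∧
      (algebraMap ℂ L w * x' + algebraMap ℂ L w ^ 2 * y') * (algebraMap ℂ L m + x + y) =
      (algebraMap ℂ L m + algebraMap ℂ L w * x + algebraMap ℂ L w ^ 2 * y) * (x' + y') * G ^ 3

/-! ## The elliptic curve `y² = x³ + 1` -/

/-- the Weierstrass curve `y² = x³ + 1` over `L` -/
abbrev EW (L : Type) [Field L] : WeierstrassCurve.Affine L :=
  { a₁ := 0, a₂ := 0, a₃ := 0, a₄ := 0, a₆ := 1 }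

/-- the Kummer class of the point `P` is represented by `d` -/
def KR {L : Type} [Field L] : (EW L).Point → L → Prop
  | .zero, d => ∃ c : L, c ≠ 0 ∧ d = c ^ 3
  | .some _ y _, d => ∃ c : L, c ≠ 0 ∧ (y - 1 = d * c ^ 3 ∨ d * (y + 1) = c ^ 3)

end

end TH160
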