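import Mathlib
import Pool.Agent.TH160.Defs
set_option autoImplicit false
namespace TH160
open Polynomial

/-! Statements of the independent components -/

/-- existence of the dual derivations -/
def StmDer : Prop :=
  ∀ (L : Type) [Field L] [Algebra ℂ L] (u v : L), AlgebraicIndependent ℂ ![u, v] →
    Algebra.IsAlgebraic (IntermediateField.adjoin ℂ {u, v}) L →
    ∃ D1 D2 : Derivation ℂ L L, Dual D1 D2 u v

/-- the trace of a regular two-form on a double (or single) plane vanishes -/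
def StmTrace : Prop :=
  ∀ (L : Type) [Field L] [Algebra ℂ L] (u v : L), AlgebraicIndependent ℂ ![u, v] →
    Module.Finite (IntermediateField.adjoin ℂ {u, v}) L →
    Module.finrank (IntermediateField.adjoin ℂ {u, v}) L ≤ 2 →
    ∀ D1 D2 : Derivation ℂ L L, Dual D1 D2 u v → ∀ h : L, Reg D1 D2 h →
      Algebra.trace (IntermediateField.adjoin ℂ {u, v}) L h = 0

/-- core of the trace lemma: `s * h` is integral over `k[v]`, where `L = k(v)(s)` and `s²` is a
squarefree polynomial in `v` -/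
def StmCore : Prop :=
  ∀ (k L : Type) [Field k] [CharZero k] [Field L] [Algebra k L] (v s : L) (f : k[X]),
    Transcendental k v → s ^ 2 = aeval v f → Squarefree f →
    (∀ z : L, ∃ p q r : k[X], r ≠ 0 ∧ z * aeval v r = aeval v p + aeval v q * s) →
    ∀ D1 D2 : Derivation ℤ L L,
    (∀ p : k[X], ∃ p' : k[X], D1 (aeval v p) = aeval v p') →
    (∀ p : k[X], ∃ p' : k[X], D2 (aeval v p) = aeval v p') →
    ∀ h : L, (∀ O : ValuationSubring L, (∀ c : k, algebraMap k L c ∈ O) → v ∈ O →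
      ∃ a ∈ O, ∃ b ∈ O, ∃ c ∈ O, h = c * (D1 a * D2 b - D2 a * D1 b)) →
    IsIntegral (Algebra.adjoin k {v}) (s * h)

/-- the two-forms attached to points of the cubic are regular -/
def StmLocal : Prop :=
  ∀ (A B C : ℂ[X]), Nice4 A B C → ∀ (L : Type) [Field L] [Algebra ℂ L]
    (D1 D2 : Derivation ℂ L L) (T X Y Z h : L), Transcendental ℂ T →
    aeval T A * X ^ 3 + aeval T B * Y ^ 3 + aeval T C * Z ^ 3 = 0 →
    (X ≠ 0 ∨ Y ≠ 0 ∨ Z ≠ 0) → IsForm A B C D1 D2 T X Y Z h →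
    Reg D1 D2 h ∧ Reg D1 D2 (T * h)

/-- the Jacobian determinant of two algebraically independent elements does not vanish -/
def StmJac : Prop :=
  ∀ (L : Type) [Field L] [Algebra ℂ L] (u v : L), AlgebraicIndependent ℂ ![u, v] →
    Algebra.IsAlgebraic (IntermediateField.adjoin ℂ {u, v}) L →
    ∀ D1 D2 : Derivation ℂ L L, Dual D1 D2 u v → ∀ a b : L, AlgebraicIndependent ℂ ![a, b] →
      br D1 D2 a b ≠ 0

/-- `ℂ(τ)` is algebraically closed in the function field of the cubic -/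
def StmClosed : Prop :=
  ∀ (A B C : ℂ[X]), A ≠ 0 → B ≠ 0 → C ≠ 0 → ∀ (L : Type) [Field L] [Algebra ℂ L] (t y z : L),
    AlgebraicIndependent ℂ ![t, y] → aeval t A + aeval t B * y ^ 3 + aeval t C * z ^ 3 = 0 →
    IntermediateField.adjoin ℂ {t, y, z} = ⊤ →
    ∀ a : L, IsAlgebraic (IntermediateField.adjoin ℂ {t}) a → a ∈ IntermediateField.adjoin ℂ {t}

/-- lower bound: a double plane structure gives a section -/
def StmLB : Prop :=
  ∀ (A B C : ℂ[X]), Nice4 A B C → ∀ (L : Type) [Field L] [Algebra ℂ L] (t y z : L),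
    AlgebraicIndependent ℂ ![t, y] → aeval t A + aeval t B * y ^ 3 + aeval t C * z ^ 3 = 0 →
    IntermediateField.adjoin ℂ {t, y, z} = ⊤ →
    ∀ u v : L, AlgebraicIndependent ℂ ![u, v] →
    Module.Finite (IntermediateField.adjoin ℂ {u, v}) L →
    Module.finrank (IntermediateField.adjoin ℂ {u, v}) L ≤ 2 →
    Module.finrank (IntermediateField.adjoin ℂ {u, v}) L = 2 ∧
    ∃ a b c : ℂ[X], (a ≠ 0 ∨ b ≠ 0 ∨ c ≠ 0) ∧ A * a ^ 3 + B * b ^ 3 + C * c ^ 3 = 0

/-- upper bound: a section gives a double plane structure -/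
def StmUB : Prop :=
  ∀ (A B C : ℂ[X]), A ≠ 0 → B ≠ 0 → C ≠ 0 → ∀ (L : Type) [Field L] [Algebra ℂ L] (t y z : L),
    AlgebraicIndependent ℂ ![t, y] → aeval t A + aeval t B * y ^ 3 + aeval t C * z ^ 3 = 0 →
    IntermediateField.adjoin ℂ {t, y, z} = ⊤ →
    (∃ a b c : ℂ[X], (a ≠ 0 ∨ b ≠ 0 ∨ c ≠ 0) ∧ A * a ^ 3 + B * b ^ 3 + C * c ^ 3 = 0) →
    ∃ u v : L, AlgebraicIndependent ℂ ![u, v] ∧
      Module.Finite (IntermediateField.adjoin ℂ {u, v}) L ∧
      Module.finrank (IntermediateField.adjoin ℂ {u, v}) L ≤ 2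

/-- no section for the parameter `1/5` -/
def StmNS : Prop :=
  ∀ a b c : ℂ[X], pA (1 / 5) * a ^ 3 + pB (1 / 5) * b ^ 3 + pC * c ^ 3 = 0 →
    a = 0 ∧ b = 0 ∧ c = 0

/-- infinitely many good Hesse parameters -/
def StmGoodInf : Prop :=
  ∀ w : ℂ, w ^ 2 + w + 1 = 0 → {r : ℝ | 1 < r ∧ Good w (r : ℂ)}.Infinite

/-- twisted functoriality of the group law of `y² = x³ + 1` -/
def StmPhi : Prop :=
  ∀ (L : Type) [Field L] [CharZero L] [DecidableEq L] (σ : L →+* L) (c : L), c ^ 3 = 1 →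
    ∃ φ : (EW L).Point →+ (EW L).Point, ∀ (x y : L) (h : (EW L).Nonsingular x y),
      ∃ h' : (EW L).Nonsingular (c * σ x) (σ y),
        φ (WeierstrassCurve.Affine.Point.some x y h) =
          WeierstrassCurve.Affine.Point.some (c * σ x) (σ y) h'

/-- `1 + w + w² = 0` on `y² = x³ + 1` -/
def StmOmega : Prop :=
  ∀ (L : Type) [Field L] [CharZero L] [DecidableEq L] (w : L), w ^ 2 + w + 1 = 0 →
    ∀ φ : (EW L).Point →+ (EW L).Point, (∀ (x y : L) (h : (EW L).Nonsingular x y),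
      ∃ h' : (EW L).Nonsingular (w * x) y, φ (WeierstrassCurve.Affine.Point.some x y h) =
          WeierstrassCurve.Affine.Point.some (w * x) y h') →
    ∀ P : (EW L).Point, P + φ P + φ (φ P) = 0

/-- the Kummer class is additive -/
def StmKum : Prop :=
  ∀ (L : Type) [Field L] [CharZero L] [DecidableEq L], (∃ r : L, r ^ 3 = 2) →
    ∀ (P Q : (EW L).Point) (d e : L), d ≠ 0 → e ≠ 0 → KR P d → KR Q e → KR (P + Q) (d * e)

/-- points of `y² = x³ + 1` over `ℂ(t)` are constant -/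
def StmFLT : Prop :=
  ∀ x y : RatFunc ℂ, y ^ 2 = x ^ 3 + 1 → ∃ a b : ℂ, x = RatFunc.C a ∧ y = RatFunc.C b

/-- constant points are divisible by `1 - w` among the constant points -/
def StmDiv : Prop :=
  ∀ (L : Type) [Field L] [Algebra ℂ L] [DecidableEq L] (w : ℂ), w ^ 2 + w + 1 = 0 →
    ∀ φ : (EW L).Point →+ (EW L).Point, (∀ (x y : L) (h : (EW L).Nonsingular x y),
      ∃ h' : (EW L).Nonsingular (algebraMap ℂ L w * x) y,
        φ (WeierstrassCurve.Affine.Point.some x y h) =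
          WeierstrassCurve.Affine.Point.some (algebraMap ℂ L w * x) y h') →
    ∀ (a b : ℂ) (h : (EW L).Nonsingular (algebraMap ℂ L a) (algebraMap ℂ L b)),
    ∃ (a' b' : ℂ) (h' : (EW L).Nonsingular (algebraMap ℂ L a') (algebraMap ℂ L b')),
      WeierstrassCurve.Affine.Point.some _ _ h' - φ (WeierstrassCurve.Affine.Point.some _ _ h') =
        WeierstrassCurve.Affine.Point.some _ _ h

/-- a good parameter gives a solvable cubic over `ℂ(t)` -/
def StmTor : Prop :=
  ∀ w m b : ℂ, w ^ 2 + w + 1 = 0 → Good w m → m ≠ 1 → m ^ 2 + m + 1 ≠ 0 → m ≠ -2 →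
    b ^ 2 * (m - 1) ^ 3 = -9 * (m ^ 2 + m + 1) → b ^ 2 ≠ 1 → 
    ∃ x y z : ℂ[X], (x ≠ 0 ∨ y ≠ 0 ∨ z ≠ 0) ∧
      (X + C b) * (X - 1) * x ^ 3 + (X - C b) * y ^ 3 + X * (X + 1) * z ^ 3 = 0

/-- irreducibility of the equation -/
def StmIrr : Prop := ∀ b ∈ Tset, Irreducible (Feq b)

/-- Jacobian criterion -/
def StmSmooth : Prop := ∀ b ∈ Tset, IsSmoothSurface (Feq b)

/-- the coefficients satisfy the hypotheses of the lower bound -/
def StmNice : Prop := ∀ b ∈ Tset, Nice4 (pA b) (pB b) pC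

/-- existence of the function field -/
def StmEx : Prop :=
  ∀ b : ℂ, Irreducible (Feq b) →
    ∃ (L : Type) (_ : Field L) (_ : Algebra ℂ L) (x : Fin 3 ⊕ Fin 2 → L),
      IsFunctionField (Feq b) L x

/-- affine coordinates on the function field -/
def StmFF : Prop :=
  ∀ (b : ℂ) (L : Type) [Field L] [Algebra ℂ L] (x : Fin 3 ⊕ Fin 2 → L),
    IsFunctionField (Feq b) L x → ∃ t y z : L, AlgebraicIndependent ℂ ![t, y] ∧
      aeval t (pA b) + aeval t (pB b) * y ^ 3 + aeval t pC * z ^ 3 = 0 ∧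
      IntermediateField.adjoin ℂ {t, y, z} = ⊤

end TH160
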