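import Mathlib
import Pool.Agent.TH160.Defs
import Pool.Agent.TH182.J337
set_option autoImplicit false
namespace TH160
open Polynomial

noncomputable section

/-- the fibre over the parameter value `b` of an equation with coefficients in `ℂ[b]` -/
def fiber (F : MvPolynomial (Fin 3 ⊕ Fin 2) ℂ[X]) (b : ℂ) : MvPolynomial (Fin 3 ⊕ Fin 2) ℂ :=
  MvPolynomial.map (Polynomial.evalRingHom b) F

/-- A smooth projective family `π : 𝒳 → T` of surfaces, where `T` is the affine line without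
finitely many points and `𝒳 ⊆ P² × P¹ × T` is the hypersurface with the bihomogeneous equation
`F = 0`, whose coefficients are polynomials in the coordinate of `T`: every fibre `X_b` is
irreducible and the relative Jacobian criterion for the smoothness of `π` holds at every point. -/
structure SmoothFamily where
  /-- the parameter space, a nonempty open subset of the affine line -/
  T : Set ℂ
  /-- the equation of the family -/
  F : MvPolynomial (Fin 3 ⊕ Fin 2) ℂ[X]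
  finite_compl : Tᶜ.Finite
  bihomogeneous : ∃ d : ℕ × ℕ, MvPolynomial.IsWeightedHomogeneous bideg F d
  irreducible : ∀ b ∈ T, Irreducible (fiber F b)
  smooth : ∀ b ∈ T, IsSmoothSurface (fiber F b)

/-- `S` is a Zariski closed subset of the subset `T` of the affine line -/
def IsClosedIn (T S : Set ℂ) : Prop :=
  ∃ P : Set ℂ[X], S = {b | b ∈ T ∧ ∀ p ∈ P, p.eval b = 0}

/-- the equation of the family, of bidegree `(3, 4)` -/
def famEq : MvPolynomial (Fin 3 ⊕ Fin 2) ℂ[X] :=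
  let x0 : MvPolynomial (Fin 3 ⊕ Fin 2) ℂ[X] := MvPolynomial.X (Sum.inl 0)
  let x1 : MvPolynomial (Fin 3 ⊕ Fin 2) ℂ[X] := MvPolynomial.X (Sum.inl 1)
  let x2 : MvPolynomial (Fin 3 ⊕ Fin 2) ℂ[X] := MvPolynomial.X (Sum.inl 2)
  let s0 : MvPolynomial (Fin 3 ⊕ Fin 2) ℂ[X] := MvPolynomial.X (Sum.inr 0)
  let s1 : MvPolynomial (Fin 3 ⊕ Fin 2) ℂ[X] := MvPolynomial.X (Sum.inr 1)
  let b : MvPolynomial (Fin 3 ⊕ Fin 2) ℂ[X] := MvPolynomial.C Polynomial.X
  (s0 ^ 2 + 2 * b * s0 * s1 + 4 * s1 ^ 2) * (s0 ^ 2 - 2 * s0 * s1 + 4 * s1 ^ 2) * x0 ^ 3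
    + 2 * s0 * s1 * (s0 ^ 2 - 2 * b * s0 * s1 + 4 * s1 ^ 2) * x1 ^ 3
    + (s0 ^ 2 + 4 * s1 ^ 2) * (s0 ^ 2 + 2 * s0 * s1 + 4 * s1 ^ 2) * x2 ^ 3

end

theorem fiber_famEq (b : ℂ) : fiber famEq b = Feq b := by
  simp only [fiber, famEq, Feq, map_add, map_sub, map_mul, map_pow, map_ofNat, MvPolynomial.map_X,
    MvPolynomial.map_C, Polynomial.coe_evalRingHom, Polynomial.eval_X]

theorem homog_famEq : MvPolynomial.IsWeightedHomogeneous bideg famEq (3, 4) := by
  have hX : ∀ k : Fin 3 ⊕ Fin 2, MvPolynomial.IsWeightedHomogeneous bideg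
      (MvPolynomial.X k : MvPolynomial (Fin 3 ⊕ Fin 2) ℂ[X]) (bideg k) := fun k =>
    MvPolynomial.isWeightedHomogeneous_X _ _ _
  have hC : ∀ c : ℂ[X], MvPolynomial.IsWeightedHomogeneous bideg
      (MvPolynomial.C c : MvPolynomial (Fin 3 ⊕ Fin 2) ℂ[X]) ((0, 0) : ℕ × ℕ) := fun c =>
    MvPolynomial.isWeightedHomogeneous_C _ _
  have h4 : (4 : MvPolynomial (Fin 3 ⊕ Fin 2) ℂ[X]) = MvPolynomial.C 4 :=
    (map_ofNat MvPolynomial.C 4).symm
  have h2 : (2 : MvPolynomial (Fin 3 ⊕ Fin 2) ℂ[X]) = MvPolynomial.C 2 :=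
    (map_ofNat MvPolynomial.C 2).symm
  have hx0 := hX (Sum.inl 0)
  have hx1 := hX (Sum.inl 1)
  have hx2 := hX (Sum.inl 2)
  have hs0 := hX (Sum.inr 0)
  have hs1 := hX (Sum.inr 1)
  have q1 := ((hs0.pow 2).add ((((hC 2).mul (hC Polynomial.X)).mul hs0).mul hs1)).add
    ((hC 4).mul (hs1.pow 2))
  have q2 := ((hs0.pow 2).sub (((hC 2).mul hs0).mul hs1)).add ((hC 4).mul (hs1.pow 2))
  have q3 := ((hs0.pow 2).sub ((((hC 2).mul (hC Polynomial.X)).mul hs0).mul hs1)).add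
    ((hC 4).mul (hs1.pow 2))
  have q4 := (hs0.pow 2).add ((hC 4).mul (hs1.pow 2))
  have q5 := ((hs0.pow 2).add (((hC 2).mul hs0).mul hs1)).add ((hC 4).mul (hs1.pow 2))
  have q6 := ((hC 2).mul hs0).mul hs1
  have key := (((q1.mul q2).mul (hx0.pow 3)).add ((q6.mul q3).mul (hx1.pow 3))).add
    ((q4.mul q5).mul (hx2.pow 3))
  unfold famEq
  rw [h4, h2]
  exact key

end TH160
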