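import Mathlib
import Pool.Agent.TH160.Stm
set_option autoImplicit false
namespace TH160
open Polynomial

section quad
variable {M L : Type} [Field M] [Field L] [Algebra M L]

theorem quad_span (h : Module.finrank M L = 2) (s : L) (hs : s ∉ Set.range (algebraMap M L))
    (y : L) : ∃ α β : M, y = algebraMap M L α + algebraMap M L β * s := by
  have hfin : FiniteDimensional M L := FiniteDimensional.of_finrank_pos (by omega)
  have hli : LinearIndependent M ![(1 : L), s] := by
    rw [LinearIndependent.pair_iff]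
    intro a b hab
    have hb : b = 0 := by
      by_contra hb
      apply hs
      refine ⟨-a / b, ?_⟩
      have hb' : algebraMap M L b ≠ 0 := (_root_.map_ne_zero _).2 hb
      rw [map_div₀, map_neg, div_eq_iff hb']
      rw [Algebra.smul_def, Algebra.smul_def, mul_one] at hab
      linear_combination -hab
    refine ⟨?_, hb⟩
    rw [hb, zero_smul, add_zero, Algebra.smul_def, mul_one] at hab
    exact (map_eq_zero _).1 hab
  have hspan := hli.span_eq_top_of_card_eq_finrank' (by simp [h])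
  have hy : y ∈ Submodule.span M (Set.range ![(1 : L), s]) := by
    rw [hspan]; exact Submodule.mem_top
  rw [Matrix.range_cons, Matrix.range_cons, Matrix.range_empty, Set.union_empty] at hy
  change y ∈ Submodule.span M {(1 : L), s} at hy
  rw [Submodule.mem_span_pair] at hy
  obtain ⟨a, b, hab⟩ := hy
  exact ⟨a, b, by rw [← hab, Algebra.smul_def, Algebra.smul_def, mul_one]⟩

theorem quad_sqrt [CharZero M] (h : Module.finrank M L = 2) :
    ∃ (s : L) (n : M), s ∉ Set.range (algebraMap M L) ∧ s ^ 2 = algebraMap M L n := by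
  have hne : ∃ s : L, s ∉ Set.range (algebraMap M L) := by
    by_contra hall
    push Not at hall
    have : Module.finrank M L = 1 := by
      rw [finrank_eq_one_iff']
      refine ⟨1, one_ne_zero, fun w => ?_⟩
      obtain ⟨c, hc⟩ := hall w
      exact ⟨c, by rw [Algebra.smul_def, mul_one, hc]⟩
    omega
  obtain ⟨s, hs⟩ := hne
  obtain ⟨α, β, hαβ⟩ := quad_span h s hs (s ^ 2)
  refine ⟨s - algebraMap M L (β / 2), α + β ^ 2 / 4, ?_, ?_⟩
  · rintro ⟨c, hc⟩
    exact hs ⟨c + β / 2, by rw [map_add, hc]; ring⟩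
  · have h2 : algebraMap M L (β / 2) * 2 = algebraMap M L β := by
      rw [← map_ofNat (algebraMap M L) 2, ← map_mul]; congr 1; ring
    have h4 : algebraMap M L (α + β ^ 2 / 4) = algebraMap M L α + (algebraMap M L (β / 2)) ^ 2 := by
      rw [← map_pow, ← map_add]; congr 1; ring
    rw [h4]
    linear_combination hαβ - s * h2

/-- the third intersection point with the line through two conjugate points -/
theorem third_point [CharZero M] (A B C n y0 y1 z0 z1 : M) (s : L) (hA : A ≠ 0) (hB : B ≠ 0)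
    (hC : C ≠ 0) (hs : s ∉ Set.range (algebraMap M L)) (hsn : s ^ 2 = algebraMap M L n)
    (h01 : ¬ (y1 = 0 ∧ z1 = 0))
    (heq : algebraMap M L A
      + algebraMap M L B * (algebraMap M L y0 + algebraMap M L y1 * s) ^ 3
      + algebraMap M L C * (algebraMap M L z0 + algebraMap M L z1 * s) ^ 3 = 0) :
    ∃ X Y Z : M, (X ≠ 0 ∨ Y ≠ 0 ∨ Z ≠ 0) ∧ A * X ^ 3 + B * Y ^ 3 + C * Z ^ 3 = 0 := by
  have hind : ∀ α β : M, algebraMap M L α + algebraMap M L β * s = 0 → α = 0 ∧ β = 0 := by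
    intro a b hab
    have hb : b = 0 := by
      by_contra hb
      apply hs
      refine ⟨-a / b, ?_⟩
      have hb' : algebraMap M L b ≠ 0 := (_root_.map_ne_zero _).2 hb
      rw [map_div₀, map_neg, div_eq_iff hb']
      linear_combination -hab
    refine ⟨?_, hb⟩
    rw [hb, map_zero, zero_mul, add_zero] at hab
    exact (map_eq_zero _).1 hab
  obtain ⟨e1, e2⟩ := hind (A + B * y0 ^ 3 + C * z0 ^ 3 + 3 * n * (B * y0 * y1 ^ 2 + C * z0 * z1 ^ 2))
    (3 * (B * y0 ^ 2 * y1 + C * z0 ^ 2 * z1) + n * (B * y1 ^ 3 + C * z1 ^ 3)) (by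
      simp only [map_add, map_mul, map_pow, map_ofNat, ← hsn]
      linear_combination heq)
  set Fb := B * y1 ^ 3 + C * z1 ^ 3 with hFb
  set ρ := 3 * (B * y0 * y1 ^ 2 + C * z0 * z1 ^ 2) with hρ
  refine ⟨Fb, Fb * y0 - ρ * y1, Fb * z0 - ρ * z1, ?_, ?_⟩
  · by_contra hcon
    push Not at hcon
    obtain ⟨h1, h2, h3⟩ := hcon
    have hy1 : ρ * y1 = 0 := by rw [h1] at h2; linear_combination -h2
    have hz1 : ρ * z1 = 0 := by rw [h1] at h3; linear_combination -h3
    have hρ0 : ρ = 0 := by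
      by_contra hρ0
      exact h01 ⟨(mul_eq_zero.1 hy1).resolve_left hρ0, (mul_eq_zero.1 hz1).resolve_left hρ0⟩
    have hy1n : y1 ≠ 0 := by
      intro h
      apply h01
      refine ⟨h, ?_⟩
      rw [hFb, h] at h1
      have : C * z1 ^ 3 = 0 := by linear_combination h1
      rcases mul_eq_zero.1 this with h5 | h5
      · exact absurd h5 hC
      · exact pow_eq_zero_iff (by norm_num) |>.1 h5
    have h6 : B * y1 ^ 2 * (y0 * z1 - z0 * y1) = 0 := by
      have h7 : B * y0 * y1 ^ 2 + C * z0 * z1 ^ 2 = 0 := by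
        have : (3 : M) * (B * y0 * y1 ^ 2 + C * z0 * z1 ^ 2) = 0 := by rw [← hρ]; exact hρ0
        exact (mul_eq_zero.1 this).resolve_left (by norm_num)
      rw [hFb] at h1
      linear_combination z1 * h7 - z0 * h1
    have h8 : y0 * z1 - z0 * y1 = 0 := by
      rcases mul_eq_zero.1 h6 with h9 | h9
      · exact absurd h9 (mul_ne_zero hB (pow_ne_zero _ hy1n))
      · exact h9
    have h9 : A * y1 ^ 3 = 0 := by
      have h10 : A + B * y0 ^ 3 + C * z0 ^ 3 = 0 := by
        linear_combination e1 - n * hρ0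
      rw [hFb] at h1
      linear_combination y1 ^ 3 * h10 - y0 ^ 3 * h1 + C * (y0 ^ 2 * z1 ^ 2 + y0 * z1 * z0 * y1
        + z0 ^ 2 * y1 ^ 2) * h8
    rcases mul_eq_zero.1 h9 with h11 | h11
    · exact hA h11
    · exact pow_ne_zero _ hy1n h11
  · have e1' : A + B * y0 ^ 3 + C * z0 ^ 3 = -n * ρ := by
      rw [hρ]; linear_combination e1
    have e2' : 3 * (B * y0 ^ 2 * y1 + C * z0 ^ 2 * z1) = -n * Fb := by
      linear_combination e2
    have e3 : B * y1 ^ 3 + C * z1 ^ 3 = Fb := hFb.symm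
    have e4 : 3 * (B * y0 * y1 ^ 2 + C * z0 * z1 ^ 2) = ρ := hρ.symm
    clear_value Fb ρ
    linear_combination Fb ^ 3 * e1' - Fb ^ 2 * ρ * e2' + Fb * ρ ^ 2 * e4 - ρ ^ 3 * e3

end quad

section form
variable {L : Type} [Field L] [Algebra ℂ L] {D1 D2 : Derivation ℂ L L}

theorem br_smul_aeval (T : L) (A : ℂ[X]) : br D1 D2 T (aeval T A) = 0 := by
  rw [br, Derivation.map_aeval, Derivation.map_aeval]
  simp only [smul_eq_mul]
  ring

theorem br_mul (T a b : L) : br D1 D2 T (a * b) = a * br D1 D2 T b + b * br D1 D2 T a := by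
  simp only [br, Derivation.leibniz, smul_eq_mul]
  ring

theorem br_add (T a b : L) : br D1 D2 T (a + b) = br D1 D2 T a + br D1 D2 T b := by
  simp only [br, map_add]
  ring

theorem br_cube (T a : L) : br D1 D2 T (a ^ 3) = 3 * a ^ 2 * br D1 D2 T a := by
  have : a ^ 3 = a * (a * a) := by ring
  rw [this, br_mul, br_mul]
  ring

theorem br_one (T : L) : br D1 D2 T 1 = 0 := by
  simp [br]

theorem br_zero (T : L) : br D1 D2 T 0 = 0 := by
  simp [br]

theorem exists_form (A B C : ℂ[X]) (T X Y Z : L) (hA : aeval T A ≠ 0) (hB : aeval T B ≠ 0)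
    (hC : aeval T C ≠ 0)
    (heq : aeval T A * X ^ 3 + aeval T B * Y ^ 3 + aeval T C * Z ^ 3 = 0)
    (h0 : X ≠ 0 ∨ Y ≠ 0 ∨ Z ≠ 0) : ∃ h : L, IsForm A B C D1 D2 T X Y Z h := by
  have : CharZero L := charZero_of_injective_algebraMap (algebraMap ℂ L).injective
  have h1 : aeval T A * X ^ 2 * br D1 D2 T X + aeval T B * Y ^ 2 * br D1 D2 T Y
      + aeval T C * Z ^ 2 * br D1 D2 T Z = 0 := by
    have h2 : br D1 D2 T (aeval T A * X ^ 3 + aeval T B * Y ^ 3 + aeval T C * Z ^ 3) = 0 := by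
      rw [heq, br_zero]
    rw [br_add, br_add, br_mul, br_mul, br_mul, br_smul_aeval, br_smul_aeval, br_smul_aeval,
      br_cube, br_cube, br_cube] at h2
    have h3 : (3 : L) * (aeval T A * X ^ 2 * br D1 D2 T X + aeval T B * Y ^ 2 * br D1 D2 T Y
      + aeval T C * Z ^ 2 * br D1 D2 T Z) = 0 := by linear_combination h2
    exact (mul_eq_zero.1 h3).resolve_left (by norm_num)
  have key : ∀ a b c X Y Z p q r : L, a ≠ 0 → X ≠ 0 → a * X ^ 3 + b * Y ^ 3 + c * Z ^ 3 = 0 →
      a * X ^ 2 * p + b * Y ^ 2 * q + c * Z ^ 2 * r = 0 →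
      ∃ h : L, 3 * a * X ^ 2 * h = Y * r - Z * q ∧ 3 * b * Y ^ 2 * h = Z * p - X * r ∧
        3 * c * Z ^ 2 * h = X * q - Y * p := by
    intro a b c X Y Z p q r ha hX e1 e2
    have h3 : (3 : L) * a * X ^ 2 ≠ 0 := mul_ne_zero (mul_ne_zero (by norm_num) ha)
      (pow_ne_zero _ hX)
    have h4 : 3 * a * X ^ 2 * ((Y * r - Z * q) / (3 * a * X ^ 2)) = Y * r - Z * q := by
      rw [mul_div_cancel₀ _ h3]
    refine ⟨(Y * r - Z * q) / (3 * a * X ^ 2), h4, ?_, ?_⟩
    · generalize (Y * r - Z * q) / (3 * a * X ^ 2) = h at h4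
      apply mul_left_cancel₀ (mul_ne_zero ha (pow_ne_zero 2 hX))
      linear_combination b * Y ^ 2 * h4 + r * e1 - Z * e2
    · generalize (Y * r - Z * q) / (3 * a * X ^ 2) = h at h4
      apply mul_left_cancel₀ (mul_ne_zero ha (pow_ne_zero 2 hX))
      linear_combination c * Z ^ 2 * h4 - q * e1 + Y * e2
  rcases h0 with hX | hY | hZ
  · obtain ⟨h, k1, k2, k3⟩ := key _ _ _ X Y Z (br D1 D2 T X) (br D1 D2 T Y) (br D1 D2 T Z)
      hA hX heq h1
    exact ⟨h, k1, k2, k3⟩
  · obtain ⟨h, k1, k2, k3⟩ := key (aeval T B) (aeval T C) (aeval T A) Y Z X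
      (br D1 D2 T Y) (br D1 D2 T Z) (br D1 D2 T X) hB hY
      (by linear_combination heq) (by linear_combination h1)
    exact ⟨h, k3, k1, k2⟩
  · obtain ⟨h, k1, k2, k3⟩ := key (aeval T C) (aeval T A) (aeval T B) Z X Y
      (br D1 D2 T Z) (br D1 D2 T X) (br D1 D2 T Y) hC hZ
      (by linear_combination heq) (by linear_combination h1)
    exact ⟨h, k2, k3, k1⟩

/-- the derivations preserve `ℂ(u, v)` -/
theorem D_mem {D : Derivation ℂ L L} {u v : L} (M : IntermediateField ℂ L)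
    (hM : M = IntermediateField.adjoin ℂ {u, v}) (hu : D u ∈ M) (hv : D v ∈ M) (x : L)
    (hx : x ∈ M) : D x ∈ M := by
  have key : ∀ x ∈ IntermediateField.adjoin ℂ {u, v}, x ∈ M ∧ D x ∈ M := by
    intro x hx
    induction hx using IntermediateField.adjoin_induction with
    | mem x hx =>
      refine ⟨hM ▸ IntermediateField.subset_adjoin _ _ hx, ?_⟩
      rcases hx with rfl | hx
      · exact hu
      · rw [Set.mem_singleton_iff] at hx
        rw [hx]; exact hv
    | algebraMap x => exact ⟨M.algebraMap_mem x, by rw [Derivation.map_algebraMap]; exact M.zero_mem⟩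
    | add x y _ _ h1 h2 => exact ⟨M.add_mem h1.1 h2.1, by rw [map_add]; exact M.add_mem h1.2 h2.2⟩
    | inv x _ h1 =>
      refine ⟨M.inv_mem h1.1, ?_⟩
      rw [Derivation.leibniz_inv]
      exact M.mul_mem (M.neg_mem (pow_mem (M.inv_mem h1.1) 2)) h1.2
    | mul x y _ _ h1 h2 =>
      refine ⟨M.mul_mem h1.1 h2.1, ?_⟩
      rw [Derivation.leibniz]
      exact M.add_mem (M.mul_mem h1.1 h2.2) (M.mul_mem h2.1 h1.2)
  exact (key x (hM ▸ hx)).2

theorem br_mem {u v : L} (hD : Dual D1 D2 u v) (a b : L)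
    (ha : a ∈ IntermediateField.adjoin ℂ {u, v}) (hb : b ∈ IntermediateField.adjoin ℂ {u, v}) :
    br D1 D2 a b ∈ IntermediateField.adjoin ℂ {u, v} := by
  set M := IntermediateField.adjoin ℂ {u, v} with hM
  have h1 : ∀ x ∈ M, D1 x ∈ M := fun x hx =>
    D_mem M hM (by rw [hD.h11]; exact M.one_mem) (by rw [hD.h12]; exact M.zero_mem) x hx
  have h2 : ∀ x ∈ M, D2 x ∈ M := fun x hx =>
    D_mem M hM (by rw [hD.h21]; exact M.zero_mem) (by rw [hD.h22]; exact M.one_mem) x hx
  exact M.sub_mem (M.mul_mem (h1 a ha) (h2 b hb)) (M.mul_mem (h2 a ha) (h1 b hb))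

end form

end TH160
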