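import Mathlib
import Pool.Agent.TH160.Stm
import Pool.Agent.TH160.LB1
set_option autoImplicit false
namespace TH160
open Polynomial

section
variable {L : Type} [Field L] [Algebra ℂ L]

theorem ai_pair (t x : L) (ht : Transcendental ℂ t)
    (hx : Transcendental (IntermediateField.adjoin ℂ {t}) x) : AlgebraicIndependent ℂ ![t, x] := by
  rw [AlgebraicIndependent.iff_transcendental_adjoin_image (i := 1)]
  constructor
  · have : Subsingleton {j : Fin 2 // j ≠ 1} := ⟨by
      rintro ⟨a, ha⟩ ⟨b, hb⟩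
      have ha' : a = 0 := by omega
      have hb' : b = 0 := by omega
      subst ha' hb'; rfl⟩
    rw [algebraicIndependent_singleton_iff ⟨0, by norm_num⟩]
    exact ht
  · have e : (![t, x] '' {1}ᶜ) = {t} := by
      ext z
      simp only [Set.mem_image, Set.mem_compl_iff, Set.mem_singleton_iff]
      constructor
      · rintro ⟨j, hj, rfl⟩
        fin_cases j
        · rfl
        · exact absurd rfl hj
      · rintro rfl
        exact ⟨0, by norm_num, rfl⟩
    rw [e]
    intro halg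
    apply hx
    obtain ⟨p, hp, hpx⟩ := halg
    let ι : Algebra.adjoin ℂ {t} →+* IntermediateField.adjoin ℂ {t} :=
      (Subalgebra.inclusion (IntermediateField.algebra_adjoin_le_adjoin ℂ {t})).toRingHom
    have hι : Function.Injective ι := Subalgebra.inclusion_injective _
    refine ⟨p.map ι, (Polynomial.map_ne_zero_iff hι).2 hp, ?_⟩
    have hpx' : aeval x p = 0 := hpx
    rw [← hpx', aeval_def, aeval_def, eval₂_map]
    rfl

/-- elements of `ℂ(t)` are quotients of polynomials -/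
theorem clear_denom' (A B C : ℂ[X]) (t x y z : L) (ht : Transcendental ℂ t)
    (hx : x ∈ IntermediateField.adjoin ℂ {t}) (hy : y ∈ IntermediateField.adjoin ℂ {t})
    (hz : z ∈ IntermediateField.adjoin ℂ {t}) (h0 : x ≠ 0 ∨ y ≠ 0 ∨ z ≠ 0)
    (h : aeval t A * x ^ 3 + aeval t B * y ^ 3 + aeval t C * z ^ 3 = 0) :
    ∃ x y z : ℂ[X], (x ≠ 0 ∨ y ≠ 0 ∨ z ≠ 0) ∧ A * x ^ 3 + B * y ^ 3 + C * z ^ 3 = 0 := by
  have hinj : Function.Injective (aeval t : ℂ[X] →ₐ[ℂ] L) := transcendental_iff_injective.1 ht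
  have hrep : ∀ x ∈ IntermediateField.adjoin ℂ {t}, ∃ r s : ℂ[X], s ≠ 0 ∧
      x * aeval t s = aeval t r ∧ (x ≠ 0 → r ≠ 0) := by
    intro x hx
    rw [IntermediateField.mem_adjoin_simple_iff] at hx
    obtain ⟨r, s, hrs⟩ := hx
    by_cases hs : aeval t s = 0
    · refine ⟨0, 1, one_ne_zero, ?_, ?_⟩
      · rw [hrs, hs]; simp
      · intro hx0
        rw [hrs, hs] at hx0; simp at hx0
    · refine ⟨r, s, ?_, ?_, ?_⟩
      · rintro rfl; simp at hs
      · rw [hrs, div_mul_cancel₀ _ hs]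
      · rintro hx0 rfl
        rw [hrs] at hx0; simp at hx0
  obtain ⟨r1, s1, d1, e1, n1⟩ := hrep x hx
  obtain ⟨r2, s2, d2, e2, n2⟩ := hrep y hy
  obtain ⟨r3, s3, d3, e3, n3⟩ := hrep z hz
  refine ⟨r1 * (s2 * s3), r2 * (s1 * s3), r3 * (s1 * s2), ?_, ?_⟩
  · rcases h0 with h1 | h1 | h1
    · exact Or.inl (mul_ne_zero (n1 h1) (mul_ne_zero d2 d3))
    · exact Or.inr (Or.inl (mul_ne_zero (n2 h1) (mul_ne_zero d1 d3)))
    · exact Or.inr (Or.inr (mul_ne_zero (n3 h1) (mul_ne_zero d1 d2)))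
  · apply hinj
    simp only [map_add, map_mul, map_pow, map_zero, ← e1, ← e2, ← e3]
    linear_combination (aeval t s1 * aeval t s2 * aeval t s3) ^ 3 * h

/-- a point with vanishing two-form is defined over `ℂ(t)` -/
theorem rat_of_form {D1 D2 : Derivation ℂ L L} (t p q : L) (ht : Transcendental ℂ t)
    (hJ : ∀ b, AlgebraicIndependent ℂ ![t, b] → br D1 D2 t b ≠ 0)
    (hCl : ∀ a : L, IsAlgebraic (IntermediateField.adjoin ℂ {t}) a →
      a ∈ IntermediateField.adjoin ℂ {t}) (hp : p ≠ 0)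
    (h : p * br D1 D2 t q = q * br D1 D2 t p) : q / p ∈ IntermediateField.adjoin ℂ {t} := by
  apply hCl
  by_contra hn
  apply hJ _ (ai_pair t _ ht hn)
  have h1 : br D1 D2 t q = q / p * br D1 D2 t p + p * br D1 D2 t (q / p) := by
    rw [← br_mul, div_mul_cancel₀ _ hp]
  rw [h1] at h
  have h2 : p * (p * br D1 D2 t (q / p)) = 0 := by
    have h3 : p * (q / p) = q := mul_div_cancel₀ _ hp
    linear_combination h - br D1 D2 t p * h3
  rcases mul_eq_zero.1 h2 with h3 | h3
  · exact absurd h3 hp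
  · rcases mul_eq_zero.1 h3 with h4 | h4
    · exact absurd h4 hp
    · exact h4

end

theorem trace_zero_mem {M L : Type} [Field M] [Field L] [Algebra M L] [CharZero M]
    (hr : Module.finrank M L ≠ 0) (x : M) (h : Algebra.trace M L (algebraMap M L x) = 0) :
    x = 0 := by
  rw [Algebra.trace_algebraMap, nsmul_eq_mul] at h
  rcases mul_eq_zero.1 h with h1 | h1
  · exact absurd (Nat.cast_eq_zero.1 h1) hr
  · exact h1

theorem stmLB (h1 : StmDer) (h2 : StmJac) (h3 : StmTrace) (h4 : StmLocal) (h5 : StmClosed) :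
    StmLB := by
  intro A B C hN L _ _ t y z hind heq hgen u v huv hfin hle
  have hCZ : CharZero L := charZero_of_injective_algebraMap (algebraMap ℂ L).injective
  have halg : Algebra.IsAlgebraic (IntermediateField.adjoin ℂ {u, v}) L :=
    Algebra.IsAlgebraic.of_finite _ L
  obtain ⟨D1, D2, hD⟩ := h1 L u v huv halg
  have hJ := h2 L u v huv halg D1 D2 hD
  have ht : Transcendental ℂ t := hind.transcendental 0
  have hT : ∀ P : ℂ[X], P ≠ 0 → aeval t P ≠ 0 := fun P hP h => hP (transcendental_iff.1 ht P h)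
  have hA0 : A ≠ 0 := hN.fin.sA.ne_zero
  have hB0 : B ≠ 0 := hN.fin.sB.ne_zero
  have hC0 : C ≠ 0 := hN.fin.sC.ne_zero
  have hA := hT A hA0
  have hB := hT B hB0
  have hC := hT C hC0
  have heq1 : aeval t A * (1 : L) ^ 3 + aeval t B * y ^ 3 + aeval t C * z ^ 3 = 0 := by
    rw [one_pow, mul_one]; exact heq
  obtain ⟨h, hF⟩ := exists_form (D1 := D1) (D2 := D2) A B C t 1 y z hA hB hC heq1
    (Or.inl one_ne_zero)
  obtain ⟨r1, r2⟩ := h4 A B C hN L D1 D2 t 1 y z h ht heq1 (Or.inl one_ne_zero) hF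
  have t1 := h3 L u v huv hfin hle D1 D2 hD h r1
  have t2 := h3 L u v huv hfin hle D1 D2 hD (t * h) r2
  have hne : h ≠ 0 := by
    rintro rfl
    have e3 := hF.e3
    rw [br_one, mul_zero, mul_zero, sub_zero, one_mul] at e3
    exact hJ t y hind e3.symm
  have hpos : 0 < Module.finrank (IntermediateField.adjoin ℂ {u, v}) L := Module.finrank_pos
  have hrk : Module.finrank (IntermediateField.adjoin ℂ {u, v}) L ≠ 0 := hpos.ne'
  have hmemM : ∀ x ∈ IntermediateField.adjoin ℂ {u, v},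
      Algebra.trace (IntermediateField.adjoin ℂ {u, v}) L x = 0 → x = 0 := by
    intro x hx hx0
    have := trace_zero_mem hrk (⟨x, hx⟩ : IntermediateField.adjoin ℂ {u, v}) hx0
    exact congrArg Subtype.val this
  have h2r : Module.finrank (IntermediateField.adjoin ℂ {u, v}) L = 2 := by
    by_contra hcon
    have h1r : Module.finrank (IntermediateField.adjoin ℂ {u, v}) L = 1 := by omega
    rw [IntermediateField.finrank_eq_one_iff_eq_top] at h1r
    exact hne (hmemM h (by rw [h1r]; trivial) t1)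
  refine ⟨h2r, ?_⟩
  -- `t ∈ M`
  have hhM : h ∉ Set.range (algebraMap (IntermediateField.adjoin ℂ {u, v}) L) := by
    rintro ⟨c, hc⟩
    exact hne (hmemM h (by rw [← hc]; exact c.2) t1)
  obtain ⟨α, β, hαβ⟩ := quad_span h2r h hhM (t * h)
  have hα : α = 0 := by
    apply trace_zero_mem (L := L) hrk
    have e : algebraMap (IntermediateField.adjoin ℂ {u, v}) L α = t * h - β • h := by
      rw [hαβ, Algebra.smul_def]; ring
    rw [e, map_sub, map_smul, t1, t2]
    simp
  have htβ : t = algebraMap (IntermediateField.adjoin ℂ {u, v}) L β := by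
    rw [hα, map_zero, zero_add] at hαβ
    exact mul_right_cancel₀ hne hαβ
  obtain ⟨s, n, hs, hsn⟩ := quad_sqrt h2r
  obtain ⟨y0, y1, hy⟩ := quad_span h2r s hs y
  obtain ⟨z0, z1, hz⟩ := quad_span h2r s hs z
  have h01 : ¬ (y1 = 0 ∧ z1 = 0) := by
    rintro ⟨rfl, rfl⟩
    rw [map_zero, zero_mul, add_zero] at hy hz
    have htop : IntermediateField.adjoin ℂ {u, v} = ⊤ := by
      rw [eq_top_iff, ← hgen, IntermediateField.adjoin_le_iff]
      intro x hx
      rcases hx with rfl | rfl | rfl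
      · rw [htβ]; exact β.2
      · rw [hy]; exact y0.2
      · rw [hz]; exact z0.2
    have := IntermediateField.finrank_eq_one_iff_eq_top.2 htop
    omega
  have hev : ∀ P : ℂ[X], algebraMap (IntermediateField.adjoin ℂ {u, v}) L (aeval β P) =
      aeval t P := by
    intro P
    rw [htβ, ← Polynomial.aeval_algebraMap_apply]
  have hev0 : ∀ P : ℂ[X], P ≠ 0 → aeval β P ≠ 0 := by
    intro P hP h0
    apply hT P hP
    rw [← hev, h0, map_zero]
  obtain ⟨X0, Y0, Z0, hne0, heq0⟩ := third_point (aeval β A) (aeval β B) (aeval β C) n y0 y1 z0 z1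
    s (hev0 A hA0) (hev0 B hB0) (hev0 C hC0) hs hsn h01 (by
      rw [hev, hev, hev, ← hy, ← hz]; exact heq)
  have heqL : aeval t A * (X0 : L) ^ 3 + aeval t B * (Y0 : L) ^ 3 + aeval t C * (Z0 : L) ^ 3 = 0 := by
    have := congrArg (algebraMap (IntermediateField.adjoin ℂ {u, v}) L) heq0
    simp only [map_add, map_mul, map_pow, hev, map_zero] at this
    exact this
  have hneL : (X0 : L) ≠ 0 ∨ (Y0 : L) ≠ 0 ∨ (Z0 : L) ≠ 0 := by
    rcases hne0 with h | h | h
    · exact Or.inl (fun h' => h (Subtype.ext h'))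
    · exact Or.inr (Or.inl (fun h' => h (Subtype.ext h')))
    · exact Or.inr (Or.inr (fun h' => h (Subtype.ext h')))
  obtain ⟨h', hF'⟩ := exists_form (D1 := D1) (D2 := D2) A B C t X0 Y0 Z0 hA hB hC heqL hneL
  obtain ⟨r1', -⟩ := h4 A B C hN L D1 D2 t X0 Y0 Z0 h' ht heqL hneL hF'
  have t1' := h3 L u v huv hfin hle D1 D2 hD h' r1'
  have htM : t ∈ IntermediateField.adjoin ℂ {u, v} := by rw [htβ]; exact β.2
  have hbr : ∀ x : IntermediateField.adjoin ℂ {u, v}, br D1 D2 t x ∈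
      IntermediateField.adjoin ℂ {u, v} := fun x => br_mem hD t x htM x.2
  have haev : ∀ P : ℂ[X], aeval t P ∈ IntermediateField.adjoin ℂ {u, v} := by
    intro P; rw [← hev]; exact (aeval β P).2
  have hdiv : ∀ a b c : L, a ∈ IntermediateField.adjoin ℂ {u, v} →
      b ∈ IntermediateField.adjoin ℂ {u, v} → a ≠ 0 → a * c = b →
      c ∈ IntermediateField.adjoin ℂ {u, v} := by
    intro a b c ha hb ha0 hc
    have : c = b / a := by rw [← hc]; field_simp
    rw [this]
    exact div_mem hb ha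
  have h3M : (3 : L) ∈ IntermediateField.adjoin ℂ {u, v} := ofNat_mem _ 3
  have hh'M : h' ∈ IntermediateField.adjoin ℂ {u, v} := by
    rcases hneL with hX | hY | hZ
    · refine hdiv _ _ _ ?_ ?_ ?_ hF'.e1
      · exact mul_mem (mul_mem h3M (haev A)) (pow_mem X0.2 2)
      · exact sub_mem (mul_mem Y0.2 (hbr Z0)) (mul_mem Z0.2 (hbr Y0))
      · exact mul_ne_zero (mul_ne_zero (by norm_num) hA) (pow_ne_zero _ hX)
    · refine hdiv _ _ _ ?_ ?_ ?_ hF'.e2
      · exact mul_mem (mul_mem h3M (haev B)) (pow_mem Y0.2 2)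
      · exact sub_mem (mul_mem Z0.2 (hbr X0)) (mul_mem X0.2 (hbr Z0))
      · exact mul_ne_zero (mul_ne_zero (by norm_num) hB) (pow_ne_zero _ hY)
    · refine hdiv _ _ _ ?_ ?_ ?_ hF'.e3
      · exact mul_mem (mul_mem h3M (haev C)) (pow_mem Z0.2 2)
      · exact sub_mem (mul_mem X0.2 (hbr Y0)) (mul_mem Y0.2 (hbr X0))
      · exact mul_ne_zero (mul_ne_zero (by norm_num) hC) (pow_ne_zero _ hZ)
  have hh'0 : h' = 0 := hmemM h' hh'M t1'
  have g1 : (Y0 : L) * br D1 D2 t Z0 = Z0 * br D1 D2 t Y0 := by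
    have := hF'.e1
    rw [hh'0, mul_zero] at this
    exact (sub_eq_zero.1 this.symm)
  have g2 : (Z0 : L) * br D1 D2 t X0 = X0 * br D1 D2 t Z0 := by
    have := hF'.e2
    rw [hh'0, mul_zero] at this
    exact (sub_eq_zero.1 this.symm)
  have g3 : (X0 : L) * br D1 D2 t Y0 = Y0 * br D1 D2 t X0 := by
    have := hF'.e3
    rw [hh'0, mul_zero] at this
    exact (sub_eq_zero.1 this.symm)
  have hCl := h5 A B C hA0 hB0 hC0 L t y z hind heq hgen
  have hrat : ∀ p q : L, p ≠ 0 → p * br D1 D2 t q = q * br D1 D2 t p →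
      q / p ∈ IntermediateField.adjoin ℂ {t} := fun p q hp hpq =>
    rat_of_form t p q ht (fun b hb => hJ t b hb) hCl hp hpq
  have hscale : ∀ p : L, p ≠ 0 → aeval t A * ((X0 : L) / p) ^ 3 + aeval t B * ((Y0 : L) / p) ^ 3
      + aeval t C * ((Z0 : L) / p) ^ 3 = 0 := by
    intro p hp
    have : aeval t A * ((X0 : L) / p) ^ 3 + aeval t B * ((Y0 : L) / p) ^ 3
      + aeval t C * ((Z0 : L) / p) ^ 3 = (aeval t A * (X0 : L) ^ 3 + aeval t B * (Y0 : L) ^ 3
      + aeval t C * (Z0 : L) ^ 3) / p ^ 3 := by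
      field_simp
    rw [this, heqL, zero_div]
  rcases hneL with hX | hY | hZ
  · exact clear_denom' A B C t (X0 / X0) (Y0 / X0) (Z0 / X0) ht (hrat _ _ hX rfl)
      (hrat _ _ hX g3) (hrat _ _ hX g2.symm) (Or.inl (div_ne_zero hX hX)) (hscale _ hX)
  · exact clear_denom' A B C t (X0 / Y0) (Y0 / Y0) (Z0 / Y0) ht (hrat _ _ hY g3.symm)
      (hrat _ _ hY rfl) (hrat _ _ hY g1) (Or.inr (Or.inl (div_ne_zero hY hY))) (hscale _ hY)
  · exact clear_denom' A B C t (X0 / Z0) (Y0 / Z0) (Z0 / Z0) ht (hrat _ _ hZ g2)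
      (hrat _ _ hZ g1.symm) (hrat _ _ hZ rfl) (Or.inr (Or.inr (div_ne_zero hZ hZ))) (hscale _ hZ)

end TH160
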