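import Mathlib
set_option autoImplicit false
namespace TH160
open Polynomial

/-- the cubic Kummer extension `L = K(θ)`, `θ³ = D`, with its automorphism `θ ↦ w θ` -/
structure Cub {K L : Type} [Field K] [Field L] [Algebra K L] (w D : K) (θ : L)
    (g : L →ₐ[K] L) : Prop where
  hw : w ^ 2 + w + 1 = 0
  hD : D ≠ 0
  hθ : θ ^ 3 = algebraMap K L D
  hg : g θ = algebraMap K L w * θ
  span : ∀ z : L, ∃ a b c : K,
    z = algebraMap K L a + algebraMap K L b * θ + algebraMap K L c * θ ^ 2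
  indep : ∀ a b c : K, algebraMap K L a + algebraMap K L b * θ + algebraMap K L c * θ ^ 2 = 0 →
    a = 0 ∧ b = 0 ∧ c = 0

namespace Cub
variable {K L : Type} [Field K] [CharZero K] [Field L] [Algebra K L] {w D : K} {θ : L}
  {g : L →ₐ[K] L}

theorem w3 (h : Cub w D θ g) : w ^ 3 = 1 := by
  linear_combination (w - 1) * h.hw

theorem w_ne (h : Cub w D θ g) : w ≠ 1 := by
  intro h1
  have := h.hw
  rw [h1] at this
  norm_num at this

theorem w2_ne (h : Cub w D θ g) : w ^ 2 ≠ 1 := by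
  intro h1
  have h2 := h.hw
  have h3 : w = -2 := by linear_combination h2 - h1
  rw [h3] at h1
  norm_num at h1

theorem w_ne0 (h : Cub w D θ g) : w ≠ 0 := by
  intro h1
  have := h.hw
  rw [h1] at this
  norm_num at this

theorem θ_ne (h : Cub w D θ g) : θ ≠ 0 := by
  intro h1
  have h2 := h.hθ
  rw [h1] at h2
  have h3 : algebraMap K L D = 0 := by rw [← h2]; ring
  exact h.hD ((map_eq_zero _).1 h3)

theorem fixed (h : Cub w D θ g) (z : L) (hz : g z = z) : ∃ a : K, z = algebraMap K L a := by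
  obtain ⟨a, b, c, rfl⟩ := h.span z
  simp only [map_add, map_mul, map_pow, AlgHom.commutes, h.hg] at hz
  have h1 := h.indep 0 (b * (w - 1)) (c * (w ^ 2 - 1)) (by
    simp only [map_zero, map_mul, map_sub, map_one, map_pow]
    linear_combination hz)
  have hb : b = 0 := by
    rcases mul_eq_zero.1 h1.2.1 with h2 | h2
    · exact h2
    · exact absurd (sub_eq_zero.1 h2) h.w_ne
  have hc : c = 0 := by
    rcases mul_eq_zero.1 h1.2.2 with h2 | h2
    · exact h2
    · exact absurd (sub_eq_zero.1 h2) h.w2_ne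
  exact ⟨a, by simp [hb, hc]⟩

theorem eigen (h : Cub w D θ g) (z : L) (hz : g z = algebraMap K L w * z) :
    ∃ a : K, z = algebraMap K L a * θ := by
  have h1 : g (z / θ) = z / θ := by
    rw [map_div₀, hz, h.hg]
    have := h.θ_ne
    have h3 : algebraMap K L w ≠ 0 := (_root_.map_ne_zero _).2 h.w_ne0
    field_simp
  obtain ⟨a, ha⟩ := h.fixed _ h1
  exact ⟨a, by rw [← ha, div_mul_cancel₀ _ h.θ_ne]⟩

theorem cuberoot (h : Cub w D θ g) (c : L) (hc : c ≠ 0) (a : K) (ha : c ^ 3 = algebraMap K L a) :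
    ∃ (κ : K) (j : ℕ), κ ≠ 0 ∧ j < 3 ∧ c = algebraMap K L κ * θ ^ j := by
  set W := algebraMap K L w with hW
  have hW2 : W ^ 2 + W + 1 = 0 := by
    rw [hW, ← map_pow, ← map_add, ← map_one (algebraMap K L), ← map_add, h.hw, map_zero]
  have h1 : (g c) ^ 3 = c ^ 3 := by rw [← map_pow, ha, AlgHom.commutes]
  have h2 : (g c - c) * ((g c - W * c) * (g c - W ^ 2 * c)) = 0 := by
    linear_combination h1 + (-(c * g c ^ 2) + W * c ^ 2 * g c - (W - 1) * c ^ 3) * hW2
  have key : ∀ j : ℕ, j < 3 → g c = W ^ j * c → ∃ (κ : K) (j : ℕ), κ ≠ 0 ∧ j < 3 ∧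
      c = algebraMap K L κ * θ ^ j := by
    intro j hj hgc
    have hθ := h.θ_ne
    have hWn : W ≠ 0 := (_root_.map_ne_zero _).2 h.w_ne0
    have h3 : g (c / θ ^ j) = c / θ ^ j := by
      rw [map_div₀, map_pow, hgc, h.hg, mul_pow, ← hW,
        mul_div_mul_left _ _ (pow_ne_zero _ hWn)]
    obtain ⟨κ, hκ⟩ := h.fixed _ h3
    refine ⟨κ, j, ?_, hj, ?_⟩
    · rintro rfl
      rw [map_zero, div_eq_zero_iff] at hκ
      rcases hκ with h4 | h4
      · exact hc h4
      · exact pow_ne_zero _ hθ h4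
    · rw [← hκ, div_mul_cancel₀ _ (pow_ne_zero _ hθ)]
  rcases mul_eq_zero.1 h2 with h3 | h3
  · exact key 0 (by norm_num) (by rw [pow_zero, one_mul]; exact sub_eq_zero.1 h3)
  · rcases mul_eq_zero.1 h3 with h3 | h3
    · exact key 1 (by norm_num) (by rw [pow_one]; exact sub_eq_zero.1 h3)
    · exact key 2 (by norm_num) (sub_eq_zero.1 h3)

theorem g3 (h : Cub w D θ g) (z : L) : g (g (g z)) = z := by
  obtain ⟨a, b, c, rfl⟩ := h.span z
  simp only [map_add, map_mul, map_pow, AlgHom.commutes, h.hg]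
  have h1 : (algebraMap K L w) ^ 3 = 1 := by rw [← map_pow, h.w3, map_one]
  linear_combination (algebraMap K L b * θ + algebraMap K L c * θ ^ 2 *
    ((algebraMap K L w) ^ 3 + 1)) * h1

end Cub

theorem modby_lt {K : Type} [Field K] (D : K) (f : K[X]) :
    (f %ₘ (X ^ 3 - C D : K[X])).natDegree < 3 := by
  have hmon : (X ^ 3 - C D : K[X]).Monic := monic_X_pow_sub_C D (by norm_num)
  have hdeg : (X ^ 3 - C D : K[X]).natDegree = 3 := natDegree_X_pow_sub_C
  have hne : (X ^ 3 - C D : K[X]) ≠ 1 := by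
    intro h
    rw [h, natDegree_one] at hdeg
    exact absurd hdeg (by norm_num)
  calc _ < (X ^ 3 - C D : K[X]).natDegree := natDegree_modByMonic_lt f hmon hne
    _ = 3 := hdeg

theorem adj_span {K : Type} [Field K] (D : K) (z : AdjoinRoot (X ^ 3 - C D : K[X])) :
    ∃ a b c : K, z = AdjoinRoot.of _ a + AdjoinRoot.of _ b * AdjoinRoot.root _ +
      AdjoinRoot.of _ c * AdjoinRoot.root _ ^ 2 := by
  have hmon : (X ^ 3 - C D : K[X]).Monic := monic_X_pow_sub_C D (by norm_num)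
  have hdeg : (X ^ 3 - C D : K[X]).natDegree = 3 := natDegree_X_pow_sub_C
  obtain ⟨f, hf⟩ := AdjoinRoot.mk_surjective z
  have h1 : z = AdjoinRoot.mk (X ^ 3 - C D : K[X]) (f %ₘ (X ^ 3 - C D : K[X])) := by
    rw [← hf, AdjoinRoot.mk_eq_mk]
    have := modByMonic_add_div f (X ^ 3 - C D : K[X])
    exact ⟨f /ₘ (X ^ 3 - C D), by linear_combination -this⟩
  have h2 := modby_lt D f
  generalize f %ₘ (X ^ 3 - C D : K[X]) = r at h1 h2
  refine ⟨r.coeff 0, r.coeff 1, r.coeff 2, ?_⟩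
  have h4 : r = C (r.coeff 0) + C (r.coeff 1) * X + C (r.coeff 2) * X ^ 2 := by
    conv_lhs => rw [r.as_sum_range' 3 h2]
    simp only [Finset.sum_range_succ, Finset.sum_range_zero, zero_add,
      ← C_mul_X_pow_eq_monomial, pow_zero, pow_one, mul_one]
  rw [h1]
  conv_lhs => rw [h4]
  rw [map_add, map_add, map_mul, map_mul, map_pow, AdjoinRoot.mk_C, AdjoinRoot.mk_C,
    AdjoinRoot.mk_C, AdjoinRoot.mk_X]

theorem adj_indep {K : Type} [Field K] (D : K) (a b c : K)
    (h : AdjoinRoot.of (X ^ 3 - C D : K[X]) a + AdjoinRoot.of _ b * AdjoinRoot.root _ +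
      AdjoinRoot.of _ c * AdjoinRoot.root _ ^ 2 = 0) : a = 0 ∧ b = 0 ∧ c = 0 := by
  have hdeg : (X ^ 3 - C D : K[X]).natDegree = 3 := natDegree_X_pow_sub_C
  have h1 : AdjoinRoot.mk (X ^ 3 - C D : K[X]) (C a + C b * X + C c * X ^ 2) = 0 := by
    rw [map_add, map_add, map_mul, map_mul, map_pow, AdjoinRoot.mk_C, AdjoinRoot.mk_C,
      AdjoinRoot.mk_C, AdjoinRoot.mk_X]
    exact h
  rw [AdjoinRoot.mk_eq_zero] at h1
  have h2 : (C a + C b * X + C c * X ^ 2 : K[X]).natDegree < (X ^ 3 - C D : K[X]).natDegree := by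
    rw [hdeg]
    have : (C a + C b * X + C c * X ^ 2 : K[X]).natDegree ≤ 2 := by compute_degree
    omega
  have h3 : (C a + C b * X + C c * X ^ 2 : K[X]) = 0 := by
    by_contra h4
    exact absurd (natDegree_le_of_dvd h1 h4) (by omega)
  have e0 := congrArg (fun p => coeff p 0) h3
  have e1 := congrArg (fun p => coeff p 1) h3
  have e2 := congrArg (fun p => coeff p 2) h3
  simp [coeff_X, coeff_C, coeff_X_pow] at e0 e1 e2
  exact ⟨e0, e1, e2⟩

theorem adj_root {K : Type} [Field K] (D : K) :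
    (AdjoinRoot.root (X ^ 3 - C D : K[X])) ^ 3 = AdjoinRoot.of _ D := by
  have h1 := AdjoinRoot.eval₂_root (X ^ 3 - C D : K[X])
  simp only [eval₂_sub, eval₂_X_pow, eval₂_C] at h1
  exact sub_eq_zero.1 h1

/-- existence of the cubic Kummer extension -/
theorem exists_cub {K : Type} [Field K] [CharZero K] (w D : K) (hw : w ^ 2 + w + 1 = 0)
    (hD : ∀ c : K, c ^ 3 ≠ D) :
    ∃ (L : Type) (_ : Field L) (_ : Algebra K L) (θ : L) (g : L →ₐ[K] L), Cub w D θ g := by
  have hirr : Irreducible (X ^ 3 - C D : K[X]) := X_pow_sub_C_irreducible_of_prime Nat.prime_three hD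
  have : Fact (Irreducible (X ^ 3 - C D : K[X])) := ⟨hirr⟩
  have hD0 : D ≠ 0 := by
    rintro rfl
    exact hD 0 (by norm_num)
  have hθ := adj_root D
  have hg : eval₂ (Algebra.ofId K (AdjoinRoot (X ^ 3 - C D : K[X]))).toRingHom
      (AdjoinRoot.of _ w * AdjoinRoot.root _) (X ^ 3 - C D : K[X]) = 0 := by
    have h3 : w ^ 3 = 1 := by linear_combination (w - 1) * hw
    rw [eval₂_sub, eval₂_X_pow, eval₂_C, mul_pow, hθ, ← map_pow, h3, map_one, one_mul]
    exact sub_self _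
  exact ⟨AdjoinRoot (X ^ 3 - C D : K[X]), inferInstance, inferInstance, AdjoinRoot.root _,
    AdjoinRoot.liftAlgHom (X ^ 3 - C D : K[X]) (Algebra.ofId K _)
      (AdjoinRoot.of _ w * AdjoinRoot.root _) hg, hw, hD0, hθ,
      AdjoinRoot.liftAlgHom_root _ _ _ _, adj_span D, adj_indep D⟩

end TH160
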