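import Mathlib
import Pool.Agent.TH160.Defs
import Pool.Agent.TH160.Tor2
set_option autoImplicit false
namespace TH160
open Polynomial WeierstrassCurve.Affine

section KRfacts
variable {L : Type} [Field L]

theorem KR_scale {P : (EW L).Point} {d : L} (h : KR P d) {c : L} (hc : c ≠ 0) :
    KR P (d * c ^ 3) := by
  cases P with
  | zero =>
    obtain ⟨e, he, h⟩ := h
    exact ⟨e * c, mul_ne_zero he hc, by rw [h]; ring⟩
  | some x y _ =>
    obtain ⟨e, he, h⟩ := h
    rcases h with h | h
    · refine ⟨e / c, div_ne_zero he hc, Or.inl ?_⟩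
      rw [h]; field_simp
    · refine ⟨e * c, mul_ne_zero he hc, Or.inr ?_⟩
      linear_combination c ^ 3 * h

theorem KR_neg {P : (EW L).Point} {d : L} (hd : d ≠ 0) (h : KR P d) : KR (-P) d⁻¹ := by
  cases P with
  | zero =>
    obtain ⟨e, he, h⟩ := h
    exact ⟨e⁻¹, inv_ne_zero he, by rw [h, inv_pow]⟩
  | some x y _ =>
    obtain ⟨e, he, h⟩ := h
    rcases h with h | h
    · refine ⟨-e, neg_ne_zero.2 he, Or.inr ?_⟩
      simp only [WeierstrassCurve.Affine.negY]
      have h2 : e ^ 3 = d⁻¹ * (y - 1) := by rw [h]; field_simp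
      linear_combination h2
    · refine ⟨-e, neg_ne_zero.2 he, Or.inl ?_⟩
      simp only [WeierstrassCurve.Affine.negY]
      have h2 : y + 1 = d⁻¹ * e ^ 3 := by rw [← h]; field_simp
      linear_combination -h2

/-- the point map `(x, y) ↦ (c σ x, σ y)` -/
def IsTw (σ : L →+* L) (c : L) (φ : (EW L).Point → (EW L).Point) : Prop :=
  φ 0 = 0 ∧ ∀ (x y : L) (h : (EW L).Nonsingular x y),
      ∃ h' : (EW L).Nonsingular (c * σ x) (σ y),
        φ (Point.some x y h) = Point.some (c * σ x) (σ y) h'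

theorem KR_tw {σ : L →+* L} {c : L} {φ : (EW L).Point → (EW L).Point} (hφ : IsTw σ c φ)
    {P : (EW L).Point} {d : L} (h : KR P d) : KR (φ P) (σ d) := by
  cases P with
  | zero =>
    have h0 := hφ.1
    rw [show (Point.zero : (EW L).Point) = 0 from rfl, h0]
    obtain ⟨e, he, h⟩ := h
    exact ⟨σ e, (_root_.map_ne_zero σ).2 he, by rw [h, map_pow]⟩
  | some x y hxy =>
    obtain ⟨h', h1⟩ := hφ.2 x y hxy
    rw [h1]
    obtain ⟨e, he, h⟩ := h
    refine ⟨σ e, (_root_.map_ne_zero σ).2 he, ?_⟩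
    rcases h with h | h
    · left
      rw [← map_pow, ← map_mul, ← h, map_sub, map_one]
    · right
      rw [← map_pow, ← h, map_mul, map_add, map_one]

end KRfacts

section extract
variable {K L : Type} [Field K] [CharZero K] [Field L] [Algebra K L] {w D : K} {θ : L}
  {g : L →ₐ[K] L}

theorem root_eq (h : Cub w D θ g) {c : L} (hc : c ≠ 0) {a : K} (ha : c ^ 3 = algebraMap K L a) :
    ∃ (κ : K) (j : ℕ), κ ≠ 0 ∧ j < 3 ∧ a = κ ^ 3 * D ^ j := by
  obtain ⟨κ, j, hκ, hj, hc⟩ := h.cuberoot c hc a ha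
  refine ⟨κ, j, hκ, hj, (algebraMap K L).injective ?_⟩
  rw [← ha, hc, map_mul, map_pow, map_pow, ← h.hθ]
  ring

/-- a point of the right Kummer class gives a solution of the cubic equation -/
theorem extract (h : Cub w D θ g) (A B C : K) (hABC : A * B * C = D) (r : K) (hr : r ^ 3 = 2)
    (Q : (EW L).Point) (hQ : ∀ (x y : L) (hxy : (EW L).Nonsingular x y), Q = Point.some x y hxy →
      g x = algebraMap K L w * x ∧ g y = y) (hK : KR Q (algebraMap K L (C / B))) :
    ∃ x y z : K, (x ≠ 0 ∨ y ≠ 0 ∨ z ≠ 0) ∧ A * x ^ 3 + B * y ^ 3 + C * z ^ 3 = 0 := by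
  have hD := h.hD
  have hA : A ≠ 0 := by rintro rfl; exact hD (by rw [← hABC]; ring)
  have hB : B ≠ 0 := by rintro rfl; exact hD (by rw [← hABC]; ring)
  have hC : C ≠ 0 := by rintro rfl; exact hD (by rw [← hABC]; ring)
  have hr0 : r ≠ 0 := by rintro rfl; norm_num at hr
  cases Q with
  | zero =>
    obtain ⟨c, hc, hc3⟩ := hK
    obtain ⟨κ, j, hκ, hj, e⟩ := root_eq h hc hc3.symm
    rw [div_eq_iff hB] at e
    interval_cases j
    · exact ⟨0, κ, -1, Or.inr (Or.inl hκ), by linear_combination -e⟩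
    · refine ⟨B * κ, -1, 0, Or.inr (Or.inl (by norm_num)), ?_⟩
      have h1 : C * (A * (B * κ) ^ 3 - B) = 0 := by
        rw [← hABC] at e
        linear_combination -B * e
      rcases mul_eq_zero.1 h1 with h2 | h2
      · exact absurd h2 hC
      · linear_combination h2
    · refine ⟨-1, 0, A * B * κ, Or.inl (by norm_num), ?_⟩
      have h1 : C * (-A + C * (A * B * κ) ^ 3) = 0 := by
        rw [← hABC] at e
        linear_combination -A * e
      rcases mul_eq_zero.1 h1 with h2 | h2
      · exact absurd h2 hC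
      · linear_combination h2
  | some x y hxy =>
    obtain ⟨h1, h2⟩ := hQ x y hxy rfl
    obtain ⟨x0, hx0⟩ := h.eigen x h1
    obtain ⟨y0, hy0⟩ := h.fixed y h2
    have heq : y0 ^ 2 = x0 ^ 3 * D + 1 := by
      have h3 := hxy.1
      rw [WeierstrassCurve.Affine.equation_iff] at h3
      apply (algebraMap K L).injective
      rw [map_pow, map_add, map_mul, map_pow, map_one, ← h.hθ, ← hy0, ← mul_pow, ← hx0]
      linear_combination h3
    obtain ⟨c, hc, hcc⟩ := hK
    rcases hcc with hcc | hcc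
    · have h4 : c ^ 3 = algebraMap K L ((y0 - 1) * B / C) := by
        have h5 : algebraMap K L (C / B) ≠ 0 := (_root_.map_ne_zero _).2 (div_ne_zero hC hB)
        apply mul_left_cancel₀ h5
        rw [← hcc, ← map_mul, hy0, ← map_one (algebraMap K L), ← map_sub]
        congr 1
        field_simp
      obtain ⟨κ, j, hκ, hj, e⟩ := root_eq h hc h4
      rw [div_eq_iff hC] at e
      rw [← hABC] at e heq
      interval_cases j
      · have key : A * B ^ 3 * x0 ^ 3 = κ ^ 3 * (κ ^ 3 * C + 2 * B) := by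
          apply mul_left_cancel₀ hC
          linear_combination (-B ^ 2) * heq + ((y0 - 1) * B + C * κ ^ 3 + 2 * B) * e
        have k2 : A * (B * x0 / κ) ^ 3 = κ ^ 3 * C + 2 * B := by
          rw [div_pow, mul_div_assoc', div_eq_iff (pow_ne_zero _ hκ)]
          linear_combination key
        refine ⟨B * x0 / κ, -r, -κ, Or.inr (Or.inl (neg_ne_zero.2 hr0)), ?_⟩
        linear_combination k2 - B * hr
      · have e1 : y0 - 1 = κ ^ 3 * A * C ^ 2 := by
          apply mul_left_cancel₀ hB
          linear_combination e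
        have key : B * x0 ^ 3 = κ ^ 3 * (A * C ^ 3 * κ ^ 3 + 2 * C) := by
          apply mul_left_cancel₀ (mul_ne_zero hA hC)
          linear_combination (-1) * heq + (y0 + 1 + κ ^ 3 * A * C ^ 2) * e1
        have k2 : B * (x0 / κ) ^ 3 = A * C ^ 3 * κ ^ 3 + 2 * C := by
          rw [div_pow, mul_div_assoc', div_eq_iff (pow_ne_zero _ hκ)]
          linear_combination key
        refine ⟨C * κ, -(x0 / κ), r, Or.inr (Or.inr hr0), ?_⟩
        linear_combination (-1) * k2 + C * hr
      · have e1 : y0 - 1 = κ ^ 3 * A ^ 2 * B * C ^ 3 := by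
          apply mul_left_cancel₀ hB
          linear_combination e
        have key : x0 ^ 3 = κ ^ 3 * C ^ 2 * (2 * A + A ^ 3 * B * C ^ 3 * κ ^ 3) := by
          apply mul_left_cancel₀ (mul_ne_zero (mul_ne_zero hA hB) hC)
          linear_combination (-1) * heq + (y0 + 1 + κ ^ 3 * A ^ 2 * B * C ^ 3) * e1
        have k2 : C * (x0 / (κ * C)) ^ 3 = 2 * A + A ^ 3 * B * C ^ 3 * κ ^ 3 := by
          rw [div_pow, mul_div_assoc', div_eq_iff (pow_ne_zero _ (mul_ne_zero hκ hC))]
          linear_combination C * key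
        refine ⟨r, A * C * κ, -(x0 / (κ * C)), Or.inl hr0, ?_⟩
        linear_combination (-1) * k2 + A * hr
    · have h4 : c ^ 3 = algebraMap K L ((y0 + 1) * C / B) := by
        rw [← hcc, hy0, ← map_one (algebraMap K L), ← map_add, ← map_mul]
        congr 1
        field_simp
      obtain ⟨κ, j, hκ, hj, e⟩ := root_eq h hc h4
      rw [div_eq_iff hB] at e
      rw [← hABC] at e heq
      interval_cases j
      · have key : A * C ^ 3 * x0 ^ 3 = κ ^ 3 * (κ ^ 3 * B - 2 * C) := by
          apply mul_left_cancel₀ hB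
          linear_combination (-C ^ 2) * heq + ((y0 + 1) * C + B * κ ^ 3 - 2 * C) * e
        have k2 : A * (C * x0 / κ) ^ 3 = κ ^ 3 * B - 2 * C := by
          rw [div_pow, mul_div_assoc', div_eq_iff (pow_ne_zero _ hκ)]
          linear_combination key
        refine ⟨C * x0 / κ, -κ, r, Or.inr (Or.inr hr0), ?_⟩
        linear_combination k2 + C * hr
      · have e1 : y0 + 1 = κ ^ 3 * A * B ^ 2 := by
          apply mul_left_cancel₀ hC
          linear_combination e
        have key : C * x0 ^ 3 = κ ^ 3 * (A * B ^ 3 * κ ^ 3 - 2 * B) := by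
          apply mul_left_cancel₀ (mul_ne_zero hA hB)
          linear_combination (-1) * heq + (y0 - 1 + κ ^ 3 * A * B ^ 2) * e1
        have k2 : C * (x0 / κ) ^ 3 = A * B ^ 3 * κ ^ 3 - 2 * B := by
          rw [div_pow, mul_div_assoc', div_eq_iff (pow_ne_zero _ hκ)]
          linear_combination key
        refine ⟨B * κ, -r, -(x0 / κ), Or.inr (Or.inl (neg_ne_zero.2 hr0)), ?_⟩
        linear_combination (-1) * k2 - B * hr
      · have e1 : y0 + 1 = κ ^ 3 * A ^ 2 * B ^ 3 * C := by
          apply mul_left_cancel₀ hC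
          linear_combination e
        have key : x0 ^ 3 = κ ^ 3 * B ^ 2 * (C * A ^ 3 * B ^ 3 * κ ^ 3 - 2 * A) := by
          apply mul_left_cancel₀ (mul_ne_zero (mul_ne_zero hA hB) hC)
          linear_combination (-1) * heq + (y0 - 1 + κ ^ 3 * A ^ 2 * B ^ 3 * C) * e1
        have k2 : B * (x0 / (κ * B)) ^ 3 = C * A ^ 3 * B ^ 3 * κ ^ 3 - 2 * A := by
          rw [div_pow, mul_div_assoc', div_eq_iff (pow_ne_zero _ (mul_ne_zero hκ hB))]
          linear_combination B * key
        refine ⟨-r, -(x0 / (κ * B)), A * B * κ, Or.inl (neg_ne_zero.2 hr0), ?_⟩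
        linear_combination (-1) * k2 - A * hr

end extract

end TH160
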