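import Mathlib
set_option autoImplicit false
namespace TH160

/-- the polynomial identity behind the Kummer class computation -/
theorem cube_poly {R : Type} [CommRing R] (m w X f : R) (hw : w ^ 2 + w + 1 = 0)
    (hR : X ^ 3 + 27 * X ^ 2 + 9 * ((m ^ 2 + m + 1) * X + 3 * (m + 2) ^ 3) * f ^ 3 = 0) :
    9 * ((m ^ 2 + m + 1) * X + 3 * (m + 2) ^ 3) *
      (3 * X + (m * (2 * w + 1) + w + 2) * f ^ 3 - (w + 2) * X * f - 3 * (m + 2) * (w + 2) * f ^ 2)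
      * (3 * X + (m * (2 * w + 1) + w + 2) * f ^ 3 + (1 - w) * X * f
        + 3 * (m + 2) * (2 * w + 1) * f ^ 2) ^ 2 =
    (X ^ 2 + 9 * (m + 2) * X + 9 * w * (m + 2) ^ 2 * f ^ 2 - 3 * w * (m - 1) * X * f
      + (w * m - m + 2 * w + 1) * X * f ^ 2) ^ 3 := by
  linear_combination (-6*m^3*w*f^6 - 27*m^3*w*f^5 + 81*m^3*w*f^3 - 3*m^3*f^6 + 81*m^3*f^4 + 135*m^3*f^3 + 9*m^2*w*X*f^4 - 9*m^2*w*X*f^3 - 135*m^2*w*X*f^2 - 81*m^2*w*X*f - 9*m^2*w*f^6 - 108*m^2*w*f^5 - 81*m^2*w*f^4 + 486*m^2*w*f^3 - 36*m^2*X*f^3 - 81*m^2*X*f^2 - 18*m^2*f^6 - 54*m^2*f^5 + 324*m^2*f^4 + 810*m^2*f^3 - 3*m*w*X^2*f^2 + 9*m*w*X^2*f + 18*m*w*X*f^4 + 45*m*w*X*f^3 - 378*m*w*X*f^2 - 324*m*w*X*f + 9*m*w*f^6 - 108*m*w*f^5 - 324*m*w*f^4 + 972*m*w*f^3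 + 3*m*X^2*f^2 - 27*m*X^2 + 18*m*X*f^4 - 36*m*X*f^3 - 243*m*X*f^2 - 9*m*f^6 - 135*m*f^5 + 324*m*f^4 + 1620*m*f^3 - 6*w*X^2*f^2 - 9*w*X^2*f + 45*w*X*f^3 - 216*w*X*f^2 - 324*w*X*f + 6*w*f^6 - 324*w*f^4 + 648*w*f^3 - 1*X^3 - 3*X^2*f^2 - 27*X^2 + 9*X*f^4 + 18*X*f^3 - 162*X*f^2 + 3*f^6 - 54*f^5 + 1080*f^3) * hR
    + (216*m^6*w*f^9 + 972*m^6*w*f^8 - 3645*m^6*w*f^6 + 108*m^6*f^9 - 2916*m^6*f^7 - 5103*m^6*f^6 + 72*m^5*w*X*f^9 + 324*m^5*w*X*f^8 - 324*m^5*w*X*f^7 - 2187*m^5*w*X*f^6 + 729*m^5*w*X*f^5 + 1620*m^5*w*f^9 + 8748*m^5*w*f^8 - 43740*m^5*w*f^6 + 36*m^5*X*f^9 - 972*m^5*X*f^7 - 972*m^5*X*f^6 + 729*m^5*X*f^5 - 2187*m^5*X*f^4 + 1296*m^5*f^9 + 1458*m^5*f^8 - 30618*m^5*f^7 - 61236*m^5*f^6 - 108*m^4*w*X^2*f^7 -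 351*m^4*w*X^2*f^6 + 324*m^4*w*X^2*f^5 + 180*m^4*w*X*f^9 + 1296*m^4*w*X*f^8 - 2268*m^4*w*X*f^7 - 17496*m^4*w*X*f^6 + 5103*m^4*w*X*f^5 + 4698*m^4*w*f^9 + 31347*m^4*w*f^8 - 218700*m^4*w*f^6 + 243*m^4*X^2*f^6 + 81*m^4*X^2*f^5 - 1215*m^4*X^2*f^4 + 252*m^4*X*f^9 + 486*m^4*X*f^8 - 5832*m^4*X*f^7 - 7533*m^4*X*f^6 + 5103*m^4*X*f^5 - 21870*m^4*X*f^4 + 5751*m^4*f^9 + 12393*m^4*f^8 - 131220*m^4*f^7 - 306180*m^4*f^6 - 1*m^3*w*X^3*f^6 + 63*m^3*w*X^3*f^5 + 54*m^3*w*X^3*f^4 - 216*m^3*w*X^2*f^7 - 1350*m^3*w*X^2*f^6 + 1863*m^3*w*X^2*f^5 + 1458*m^3*w*X^2*f^4 + 234*m^3*w*X*f^9 + 2025*m^3*w*X*f^8 - 5913*m^3*w*X*f^7 - 55404*m^3*w*X*f^6 + 11664*m^3*w*X*f^5 + 6615*m^3*w*f^9 + 56376*m^3*w*f^8 - 583200*m^3*w*f^6 + 4*m^3*X^3*f^6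 - 54*m^3*X^3*f^5 - 270*m^3*X^3*f^4 - 162*m^3*X^3*f^3 - 162*m^3*X^2*f^7 + 324*m^3*X^2*f^6 - 567*m^3*X^2*f^5 - 9720*m^3*X^2*f^4 - 4374*m^3*X^2*f^3 + 441*m^3*X*f^9 + 1701*m^3*X*f^8 - 14337*m^3*X*f^7 - 25029*m^3*X*f^6 + 11664*m^3*X*f^5 - 87480*m^3*X*f^4 + 12177*m^3*f^9 + 40824*m^3*f^8 - 291600*m^3*f^7 - 816480*m^3*f^6 - 9*m^2*w*X^4*f^3 - 6*m^2*w*X^3*f^6 + 108*m^2*w*X^3*f^5 + 243*m^2*w*X^3*f^4 - 243*m^2*w*X^3*f^3 - 243*m^2*w*X^2*f^7 - 2106*m^2*w*X^2*f^6 + 3402*m^2*w*X^2*f^5 + 6561*m^2*w*X^2*f^4 + 171*m^2*w*X*f^9 + 1863*m^2*w*X*f^8 - 6966*m^2*w*X*f^7 - 87480*m^2*w*X*f^6 + 5832*m^2*w*X*f^5 + 4698*m^2*w*f^9 + 52488*m^2*w*f^8 - 874800*m^2*w*f^6 - 3*m^2*X^4*f^4 + 27*m^2*X^4*f^3 + 54*m^2*X^4*f^2 + 15*m^2*X^3*f^6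 - 27*m^2*X^3*f^5 - 810*m^2*X^3*f^4 - 243*m^2*X^3*f^3 + 1458*m^2*X^3*f^2 - 243*m^2*X^2*f^7 + 243*m^2*X^2*f^6 - 972*m^2*X^2*f^5 - 26973*m^2*X^2*f^4 - 26244*m^2*X^2*f^3 + 450*m^2*X*f^9 + 2187*m^2*X*f^8 - 19440*m^2*X*f^7 - 47142*m^2*X*f^6 + 5832*m^2*X*f^5 - 174960*m^2*X*f^4 + 12798*m^2*f^9 + 64152*m^2*f^8 - 349920*m^2*f^7 - 1224720*m^2*f^6 - 9*m*w*X^4*f^3 - 12*m*w*X^3*f^6 + 81*m*w*X^3*f^5 + 324*m*w*X^3*f^4 - 243*m*w*X^3*f^3 - 135*m*w*X^2*f^7 - 1998*m*w*X^2*f^6 + 1620*m*w*X^2*f^5 + 8748*m*w*X^2*f^4 + 63*m*w*X*f^9 + 891*m*w*X*f^8 - 3564*m*w*X*f^7 - 69984*m*w*X*f^6 - 11664*m*w*X*f^5 + 1620*m*w*f^9 + 23328*m*w*f^8 - 699840*m*w*f^6 - 12*m*X^4*f^4 + 27*m*X^4*f^3 + 135*m*X^4*f^2 + 12*m*X^3*f^6 + 54*m*X^3*f^5 - 1215*m*X^3*f^4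 - 1215*m*X^3*f^3 + 3645*m*X^3*f^2 - 243*m*X^2*f^7 - 243*m*X^2*f^6 + 1134*m*X^2*f^5 - 30132*m*X^2*f^4 - 52488*m*X^2*f^3 + 234*m*X*f^9 + 1701*m*X*f^8 - 14580*m*X*f^7 - 51516*m*X*f^6 - 11664*m*X*f^5 - 174960*m*X*f^4 + 6156*m*f^9 + 46656*m*f^8 - 209952*m*f^7 - 979776*m*f^6 - 9*w*X^4*f^3 - 8*w*X^3*f^6 - 9*w*X^3*f^5 + 108*w*X^3*f^4 - 243*w*X^3*f^3 - 27*w*X^2*f^7 - 756*w*X^2*f^6 - 648*w*X^2*f^5 + 2916*w*X^2*f^4 + 9*w*X*f^9 + 162*w*X*f^8 - 648*w*X*f^7 - 23328*w*X*f^6 - 11664*w*X*f^5 + 216*w*f^9 + 3888*w*f^8 - 233280*w*f^6 - 12*X^4*f^4 - 27*X^4*f^3 + 54*X^4*f^2 - 4*X^3*f^6 + 27*X^3*f^5 - 621*X^3*f^4 - 2025*X^3*f^3 + 1458*X^3*f^2 - 81*X^2*f^7 - 567*X^2*f^6 + 324*X^2*f^5 - 10692*X^2*f^4 - 34992*X^2*f^3 + 45*X*f^9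 + 486*X*f^8 - 3888*X*f^7 - 25272*X*f^6 - 11664*X*f^5 - 69984*X*f^4 + 1080*f^9 + 11664*f^8 - 46656*f^7 - 326592*f^6) * hw

end TH160
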