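import Mathlib
import Pool.Agent.TH160.Defs
import Pool.Agent.TH160.Tor1
set_option autoImplicit false
namespace TH160

section hesse
variable {R : Type} [CommRing R]

/-- homogeneous coordinates of the point of the Hesse cubic, and the flex tangent form -/
def hX (m X f : R) : R := 3 * X - X * f - 3 * (m + 2) * f ^ 2
def hY (m X f : R) : R := (m ^ 2 + m + 1) * f ^ 3 - X * f - 3 * (m + 2) * f ^ 2
def hZ (m X f : R) : R :=
  (m + 1) * (X * f + 3 * (m + 2) * f ^ 2) - 3 * X - (m ^ 2 + m + 1) * f ^ 3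
def hG (m w X f : R) : R :=
  3 * X + (m * (2 * w + 1) + w + 2) * f ^ 3 - (w + 2) * X * f - 3 * (m + 2) * (w + 2) * f ^ 2
def hC (m w X f : R) : R :=
  X ^ 2 + 9 * (m + 2) * X + 9 * w * (m + 2) ^ 2 * f ^ 2 - 3 * w * (m - 1) * X * f
      + (w * m - m + 2 * w + 1) * X * f ^ 2

theorem hesse_mem (m X f : R)
    (hR : X ^ 3 + 27 * X ^ 2 + 9 * ((m ^ 2 + m + 1) * X + 3 * (m + 2) ^ 3) * f ^ 3 = 0) :
    hX m X f ^ 3 + hY m X f ^ 3 + hZ m X f ^ 3 = 3 * m * hX m X f * hY m X f * hZ m X f := by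
  unfold hX hY hZ
  linear_combination (m ^ 3 * f ^ 3 - f ^ 3) * hR

theorem hesse_l0 (m X f : R) :
    m * hX m X f + hY m X f + hZ m X f = 3 * (m - 1) * X := by
  unfold hX hY hZ
  ring

theorem hesse_l1 (m w X f : R) (hw : w ^ 2 + w + 1 = 0) :
    m * hX m X f + w * hY m X f + w ^ 2 * hZ m X f = (m - w ^ 2) * hG m w X f := by
  unfold hX hY hZ hG
  linear_combination (-1*m^2*f^3 + 3*m^2*f^2 + 2*m*w*f^3 - 3*m*w*f^2 + m*X*f - 2*m*f^3 + 6*m*f^2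
    - 1*w*X*f + w*f^3 - 6*w*f^2) * hw

theorem hG_tw (m w X f : R) (hw : w ^ 2 + w + 1 = 0) :
    hG m w X (w * f) = 3 * X + (m * (2 * w + 1) + w + 2) * f ^ 3 + (1 - w) * X * f
        + 3 * (m + 2) * (2 * w + 1) * f ^ 2 := by
  unfold hG
  have h3 : w ^ 3 = 1 := by linear_combination (w - 1) * hw
  linear_combination ((m * (2 * w + 1) + w + 2) * f ^ 3 - 3 * (m + 2) * f ^ 2) * h3
    - (X * f + 6 * (m + 2) * f ^ 2) * hw

theorem hesse_cube (m w X f : R) (hw : w ^ 2 + w + 1 = 0)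
    (hR : X ^ 3 + 27 * X ^ 2 + 9 * ((m ^ 2 + m + 1) * X + 3 * (m + 2) ^ 3) * f ^ 3 = 0) :
    9 * ((m ^ 2 + m + 1) * X + 3 * (m + 2) ^ 3) * hG m w X f * hG m w X (w * f) ^ 2 =
      hC m w X f ^ 3 := by
  rw [hG_tw m w X f hw]
  exact cube_poly m w X f hw hR

end hesse

end TH160
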