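import Mathlib
import Pool.Agent.TH160.Stm
import Pool.Agent.TH160.Tor3
import Pool.Agent.TH160.Tor4
set_option autoImplicit false
namespace TH160
open Polynomial WeierstrassCurve.Affine

section grp

theorem pt_ext {L : Type} [Field L] {x y x' y' : L} (h : (EW L).Nonsingular x y)
    (h' : (EW L).Nonsingular x' y') (hx : x = x') (hy : y = y') :
    Point.some x y h = Point.some x' y' h' := by
  subst hx hy; rfl

theorem EW_ns {L : Type} [Field L] [CharZero L] {x y : L} (h : y ^ 2 = x ^ 3 + 1) :
    (EW L).Nonsingular x y := by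
  rw [WeierstrassCurve.Affine.nonsingular_iff]
  refine ⟨by rw [WeierstrassCurve.Affine.equation_iff]; linear_combination h, ?_⟩
  by_cases hy : y = 0
  · left
    have hx : x ≠ 0 := by
      rintro rfl
      rw [hy] at h
      norm_num at h
    have : (3 : L) * x ^ 2 ≠ 0 := mul_ne_zero (by norm_num) (pow_ne_zero _ hx)
    intro h1
    apply this
    linear_combination -h1
  · right
    intro h1
    apply hy
    have h2 : (2 : L) * y = 0 := by linear_combination h1
    rcases mul_eq_zero.1 h2 with h3 | h3
    · norm_num at h3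
    · exact h3

theorem EW_eq {L : Type} [Field L] {x y : L} (h : (EW L).Nonsingular x y) :
    y ^ 2 = x ^ 3 + 1 := by
  have h1 := h.1
  rw [WeierstrassCurve.Affine.equation_iff] at h1
  linear_combination h1

/-- the formal computation in the group -/
theorem grp_eigen {P : Type} [AddCommGroup P] (γ ω : P →+ P) (hc : ∀ X, γ (ω X) = ω (γ X))
    (ho : ∀ X, X + ω X + ω (ω X) = 0) (R S U : P) (hS : γ S = S)
    (hT : S - ω S = -ω (R + γ R + γ (γ R))) (hU : γ U = ω U) :
    γ (R - ω (γ R) - S - U) = ω (R - ω (γ R) - S - U) := by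
  rw [map_sub, map_sub, map_sub, map_sub, map_sub, map_sub, hS, hU, hc]
  have e3 := ho (γ R)
  rw [map_add, map_add] at hT
  have e4 : S = ω S - (ω R + ω (γ R) + ω (γ (γ R))) := by
    calc S = (S - ω S) + ω S := by abel
      _ = _ := by rw [hT]; abel
  have e6 : γ R - ω (γ (γ R)) - S =
      ω R - ω (ω (γ R)) - ω S := by
    calc γ R - ω (γ (γ R)) - S = γ R - ω (γ (γ R)) - (ω S - (ω R + ω (γ R) + ω (γ (γ R)))) :=
          congrArg (fun x => γ R - ω (γ (γ R)) - x) e4
      _ = (γ R + ω (γ R) + ω (ω (γ R))) + ω R - ω (ω (γ R)) - ω S := by abel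
      _ = _ := by rw [e3]; abel
  rw [e6]

end grp

end TH160
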