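import Mathlib
import Pool.Agent.TH160.Defs
import Pool.Agent.TH160.Tor2
import Pool.Agent.TH160.Tor3
import Pool.Agent.TH160.Tor4
set_option autoImplicit false
namespace TH160
open Polynomial WeierstrassCurve.Affine

theorem rel_field {L : Type} [Field L] (m b n c T θ : L) (hT2 : T ^ 2 - 1 ≠ 0)
    (hn : n * (m ^ 2 + m + 1) = 3 * (m + 2) ^ 3) (hb : b ^ 2 * (27 - n) = 27)
    (hc : 27 * (m + 2) ^ 3 * c ^ 3 = n ^ 2 * (27 - n))
    (hθ : θ ^ 3 = (T + b) * (T - 1) * (T - b) * (T * (T + 1))) :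
    (-n * T ^ 2 / (T ^ 2 - 1)) ^ 3 + 27 * (-n * T ^ 2 / (T ^ 2 - 1)) ^ 2
      + 9 * ((m ^ 2 + m + 1) * (-n * T ^ 2 / (T ^ 2 - 1)) + 3 * (m + 2) ^ 3)
        * (c * T * θ / (T ^ 2 - 1)) ^ 3 = 0 := by
  have h1 : (m ^ 2 + m + 1) * (-n * T ^ 2 / (T ^ 2 - 1)) + 3 * (m + 2) ^ 3 =
      -3 * (m + 2) ^ 3 / (T ^ 2 - 1) := by
    rw [← hn]
    field_simp
    linear_combination (-1) * hn
  have h2 : (c * T * θ / (T ^ 2 - 1)) ^ 3 = c ^ 3 * T ^ 4 * (T ^ 2 - b ^ 2) / (T ^ 2 - 1) ^ 2 := by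
    rw [div_pow, mul_pow, hθ, mul_pow]
    field_simp
    ring
  rw [h1, h2]
  field_simp
  linear_combination (-T ^ 4 * (T ^ 2 - b ^ 2)) * hc + n ^ 2 * T ^ 4 * hb

theorem key_ne {L : Type} [Field L] (m n T : L) (hT2 : T ^ 2 - 1 ≠ 0)
    (hn : n * (m ^ 2 + m + 1) = 3 * (m + 2) ^ 3) :
    (m ^ 2 + m + 1) * (-n * T ^ 2 / (T ^ 2 - 1)) + 3 * (m + 2) ^ 3 =
      -3 * (m + 2) ^ 3 / (T ^ 2 - 1) := by
  field_simp
  linear_combination (-T ^ 2) * hn

section K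

/-- the coordinate of `ℂ(t)` and the constants -/
noncomputable abbrev tt : RatFunc ℂ := RatFunc.X
noncomputable abbrev kk (c : ℂ) : RatFunc ℂ := algebraMap ℂ (RatFunc ℂ) c

theorem poly_ne {p : ℂ[X]} (x : ℂ) (hp : p.eval x ≠ 0) :
    algebraMap ℂ[X] (RatFunc ℂ) p ≠ 0 := by
  apply RatFunc.algebraMap_ne_zero
  rintro rfl
  simp at hp

theorem tt_ne : tt ≠ 0 := by
  have := poly_ne (p := X) 1 (by simp)
  rwa [RatFunc.algebraMap_X] at this

theorem tt2_ne : tt ^ 2 - 1 ≠ 0 := by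
  have := poly_ne (p := X ^ 2 - 1) 0 (by simp)
  rwa [map_sub, map_pow, map_one, RatFunc.algebraMap_X] at this

theorem kk_C (c : ℂ) : algebraMap ℂ[X] (RatFunc ℂ) (C c) = kk c := by
  rw [RatFunc.algebraMap_C, kk, RatFunc.algebraMap_eq_C]

theorem tt_add_ne (c : ℂ) : tt + kk c ≠ 0 := by
  have := poly_ne (p := X + C c) (1 - c) (by simp)
  rwa [map_add, RatFunc.algebraMap_X, kk_C] at this

theorem tt_sub_ne (c : ℂ) : tt - kk c ≠ 0 := by
  have := poly_ne (p := X - C c) (1 + c) (by simp)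
  rwa [map_sub, RatFunc.algebraMap_X, kk_C] at this

theorem kk_ne {c : ℂ} (hc : c ≠ 0) : kk c ≠ 0 := (_root_.map_ne_zero _).2 hc

/-- the coefficients of the cubic -/
noncomputable def kA (b : ℂ) : RatFunc ℂ := (tt + kk b) * (tt - 1)
noncomputable def kB (b : ℂ) : RatFunc ℂ := tt - kk b
noncomputable def kC : RatFunc ℂ := tt * (tt + 1)

theorem kA_ne (b : ℂ) : kA b ≠ 0 := by
  refine mul_ne_zero (tt_add_ne b) ?_
  have := tt_sub_ne 1
  rwa [kk, map_one] at this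

theorem kB_ne (b : ℂ) : kB b ≠ 0 := tt_sub_ne b

theorem kC_ne : kC ≠ 0 := by
  refine mul_ne_zero tt_ne ?_
  have := tt_add_ne 1
  rwa [kk, map_one] at this

theorem rm_cube {p : ℂ[X]} (hp : p ≠ 0) (x : ℂ) :
    rootMultiplicity x (p ^ 3) = 3 * rootMultiplicity x p := by
  have h : p ^ 3 = p * (p * p) := by ring
  rw [h, rootMultiplicity_mul (mul_ne_zero hp (mul_ne_zero hp hp)),
    rootMultiplicity_mul (mul_ne_zero hp hp)]
  ring

/-- the product of the coefficients is not a cube -/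
theorem kD_cube (b : ℂ) (hb0 : b ≠ 0) (c : RatFunc ℂ) : c ^ 3 ≠ kA b * kB b * kC := by
  intro h
  have hq : algebraMap ℂ[X] (RatFunc ℂ) c.denom ≠ 0 :=
    RatFunc.algebraMap_ne_zero (RatFunc.denom_ne_zero c)
  have h1 : algebraMap ℂ[X] (RatFunc ℂ) (c.num ^ 3) = algebraMap ℂ[X] (RatFunc ℂ)
      (((X + C b) * (X - 1) * (X - C b) * (X * (X + 1))) * c.denom ^ 3) := by
    have h2 : c = algebraMap ℂ[X] (RatFunc ℂ) c.num / algebraMap ℂ[X] (RatFunc ℂ) c.denom :=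
      (RatFunc.num_div_denom c).symm
    have h3 : algebraMap ℂ[X] (RatFunc ℂ) c.num = c * algebraMap ℂ[X] (RatFunc ℂ) c.denom := by
      rw [eq_div_iff hq] at h2
      exact h2.symm
    simp only [map_mul, map_pow, map_add, map_sub, map_one, RatFunc.algebraMap_X, kk_C]
    rw [h3, mul_pow, h, kA, kB, kC]
  have h4 := IsFractionRing.injective ℂ[X] (RatFunc ℂ) h1
  have hd0 : c.denom ≠ 0 := RatFunc.denom_ne_zero c
  have hn0 : c.num ≠ 0 := by
    intro h5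
    rw [h5] at h4
    have h6 : ((X + C b) * (X - 1) * (X - C b) * (X * (X + 1)) : ℂ[X]) = 0 := by
      have : ((X + C b) * (X - 1) * (X - C b) * (X * (X + 1)) : ℂ[X]) * c.denom ^ 3 = 0 := by
        rw [← h4]; ring
      rcases mul_eq_zero.1 this with h7 | h7
      · exact h7
      · exact absurd h7 (pow_ne_zero _ hd0)
    have h7 : kA b * kB b * kC = 0 := by
      have := congrArg (algebraMap ℂ[X] (RatFunc ℂ)) h6
      simpa only [map_mul, map_pow, map_add, map_sub, map_one, RatFunc.algebraMap_X, kk_C,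
        map_zero, kA, kB, kC] using this
    exact mul_ne_zero (mul_ne_zero (kA_ne b) (kB_ne b)) kC_ne h7
  have hr : ((X + C b) * (X - 1) * (X - C b) * (X + 1) : ℂ[X]).eval 0 ≠ 0 := by
    simp [hb0]
  have hr0 : ((X + C b) * (X - 1) * (X - C b) * (X + 1) : ℂ[X]) ≠ 0 := by
    intro h; rw [h] at hr; simp at hr
  have h5 : c.num ^ 3 = X * (((X + C b) * (X - 1) * (X - C b) * (X + 1)) * c.denom ^ 3) := by
    rw [h4]; ring
  have h6 := congrArg (rootMultiplicity 0) h5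
  have hX : (X : ℂ[X]) ≠ 0 := X_ne_zero
  have h7 : ((X + C b) * (X - 1) * (X - C b) * (X + 1) : ℂ[X]) * c.denom ^ 3 ≠ 0 :=
    mul_ne_zero hr0 (pow_ne_zero _ hd0)
  rw [rm_cube hn0, rootMultiplicity_mul (mul_ne_zero hX h7),
    rootMultiplicity_mul h7, rm_cube hd0, rootMultiplicity_eq_zero hr] at h6
  have h8 : rootMultiplicity (0 : ℂ) (X : ℂ[X]) = 1 := by
    have := rootMultiplicity_X_sub_C_self (x := (0 : ℂ))
    simpa using this
  rw [h8] at h6
  omega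

end K

end TH160
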