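import Mathlib
import Pool.Agent.TH160.Stm
import Pool.Agent.TH160.Tor5
import Pool.Agent.TH160.Tor6
set_option autoImplicit false
namespace TH160
open Polynomial WeierstrassCurve.Affine

structure Par (w m b n c : ℂ) : Prop where
  hw : w ^ 2 + w + 1 = 0
  hm1 : m ≠ 1
  hm2 : m ^ 2 + m + 1 ≠ 0
  hm3 : m + 2 ≠ 0
  hn : n * (m ^ 2 + m + 1) = 3 * (m + 2) ^ 3
  hb : b ^ 2 * (27 - n) = 27
  hc : 27 * (m + 2) ^ 3 * c ^ 3 = n ^ 2 * (27 - n)
  hb1 : b ^ 2 ≠ 1

theorem Par.n_ne {w m b n c : ℂ} (h : Par w m b n c) : n ≠ 0 := by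
  intro h0
  have := h.hn
  rw [h0, zero_mul] at this
  exact mul_ne_zero (by norm_num) (pow_ne_zero 3 h.hm3) this.symm

theorem Par.n27 {w m b n c : ℂ} (h : Par w m b n c) : 27 - n ≠ 0 := by
  intro h0
  have := h.hb
  rw [h0, mul_zero] at this
  norm_num at this

theorem Par.b_ne {w m b n c : ℂ} (h : Par w m b n c) : b ≠ 0 := by
  intro h0
  have := h.hb
  rw [h0] at this
  norm_num at this

theorem Par.c_ne {w m b n c : ℂ} (h : Par w m b n c) : c ≠ 0 := by
  intro h0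
  have := h.hc
  rw [h0] at this
  have h2 : n ^ 2 * (27 - n) ≠ 0 := mul_ne_zero (pow_ne_zero _ h.n_ne) h.n27
  apply h2
  rw [← this]; ring

noncomputable def XK (n : ℂ) : RatFunc ℂ := -kk n * tt ^ 2 / (tt ^ 2 - 1)
noncomputable def fK (c : ℂ) : RatFunc ℂ := kk c * tt / (tt ^ 2 - 1)

theorem XK_ne {n : ℂ} (hn : n ≠ 0) : XK n ≠ 0 :=
  div_ne_zero (mul_ne_zero (neg_ne_zero.2 (kk_ne hn)) (pow_ne_zero _ tt_ne)) tt2_ne

theorem fK_ne {c : ℂ} (hc : c ≠ 0) : fK c ≠ 0 :=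
  div_ne_zero (mul_ne_zero (kk_ne hc) tt_ne) tt2_ne

section core
variable {L : Type} [Field L] [Algebra (RatFunc ℂ) L] [Algebra ℂ L]
  [IsScalarTower ℂ (RatFunc ℂ) L]

theorem kk_map (c : ℂ) : algebraMap (RatFunc ℂ) L (kk c) = algebraMap ℂ L c :=
  (IsScalarTower.algebraMap_apply ℂ (RatFunc ℂ) L c).symm

/-- the field elements `X`, `f` -/
noncomputable def XL (L : Type) [Field L] [Algebra (RatFunc ℂ) L] (n : ℂ) : L :=
  algebraMap (RatFunc ℂ) L (XK n)
noncomputable def fL {L : Type} [Field L] [Algebra (RatFunc ℂ) L] (c : ℂ) (θ : L) : L :=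
  algebraMap (RatFunc ℂ) L (fK c) * θ

variable {w m b n c : ℂ} {θ : L} {g : L →ₐ[RatFunc ℂ] L}

theorem relL (hp : Par w m b n c) (h : Cub (kk w) (kA b * kB b * kC) θ g) :
    XL L n ^ 3 + 27 * XL L n ^ 2 + 9 * (((algebraMap ℂ L m) ^ 2 + algebraMap ℂ L m + 1) * XL L n
      + 3 * (algebraMap ℂ L m + 2) ^ 3) * fL c θ ^ 3 = 0 := by
  have hT2 : (algebraMap (RatFunc ℂ) L tt) ^ 2 - 1 ≠ 0 := by
    rw [← map_pow, ← map_one (algebraMap (RatFunc ℂ) L), ← map_sub]
    exact (_root_.map_ne_zero _).2 tt2_ne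
  have h1 := rel_field (algebraMap ℂ L m) (algebraMap ℂ L b) (algebraMap ℂ L n)
    (algebraMap ℂ L c) (algebraMap (RatFunc ℂ) L tt) θ hT2
    (by have := congrArg (algebraMap ℂ L) hp.hn
        simpa only [map_mul, map_add, map_pow, map_one, map_ofNat] using this)
    (by have := congrArg (algebraMap ℂ L) hp.hb
        simpa only [map_mul, map_sub, map_pow, map_one, map_ofNat] using this)
    (by have := congrArg (algebraMap ℂ L) hp.hc
        simpa only [map_mul, map_add, map_sub, map_pow, map_one, map_ofNat] using this)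
    (by rw [h.hθ, kA, kB, kC]
        simp only [map_mul, map_add, map_sub, map_one, kk_map])
  have e1 : XL L n = -algebraMap ℂ L n * (algebraMap (RatFunc ℂ) L tt) ^ 2 /
      ((algebraMap (RatFunc ℂ) L tt) ^ 2 - 1) := by
    rw [XL, XK]
    simp only [map_div₀, map_mul, map_neg, map_pow, map_sub, map_one, kk_map]
  have e2 : fL c θ = algebraMap ℂ L c * (algebraMap (RatFunc ℂ) L tt) * θ /
      ((algebraMap (RatFunc ℂ) L tt) ^ 2 - 1) := by
    rw [fL, fK]
    simp only [map_div₀, map_mul, map_pow, map_sub, map_one, kk_map]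
    ring
  rw [e1, e2]
  exact h1

theorem XL_ne (hp : Par w m b n c) : XL L n ≠ 0 := (_root_.map_ne_zero _).2 (XK_ne hp.n_ne)

theorem g_XL : g (XL L n) = XL L n := AlgHom.commutes _ _

theorem g_kk (a : ℂ) : g (algebraMap ℂ L a) = algebraMap ℂ L a := by
  rw [← kk_map, AlgHom.commutes]

theorem g_fL (h : Cub (kk w) (kA b * kB b * kC) θ g) : g (fL c θ) = algebraMap ℂ L w * fL c θ := by
  rw [fL, map_mul, AlgHom.commutes, h.hg, kk_map]
  ring

/-- combination of powers of the generator -/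
theorem comb_zero (h : Cub (kk w) (kA b * kB b * kC) θ g) (α β γ δ : RatFunc ℂ)
    (e : algebraMap (RatFunc ℂ) L α + algebraMap (RatFunc ℂ) L β * fL c θ
      + algebraMap (RatFunc ℂ) L γ * fL c θ ^ 2 + algebraMap (RatFunc ℂ) L δ * fL c θ ^ 3 = 0) :
    α + δ * fK c ^ 3 * (kA b * kB b * kC) = 0 ∧ β * fK c = 0 ∧ γ * fK c ^ 2 = 0 := by
  apply h.indep
  have h1 := h.hθ
  simp only [map_mul] at h1
  simp only [map_add, map_mul, map_pow]
  simp only [fL] at e
  linear_combination e - algebraMap (RatFunc ℂ) L δ * algebraMap (RatFunc ℂ) L (fK c) ^ 3 * h1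

theorem hX_ne (hp : Par w m b n c) (h : Cub (kk w) (kA b * kB b * kC) θ g) :
    hX (algebraMap ℂ L m) (XL L n) (fL c θ) ≠ 0 := by
  intro e
  have h1 := comb_zero (c := c) h (3 * XK n) (-XK n) (-3 * (kk m + 2)) 0 (by
    rw [hX] at e
    simp only [map_mul, map_neg, map_add, map_ofNat, map_zero, kk_map]
    rw [XL] at e
    linear_combination e)
  have h2 : 3 * XK n = 0 := by linear_combination h1.1
  exact mul_ne_zero (by norm_num) (XK_ne hp.n_ne) h2

/-- the point is not constant -/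
theorem nonconst (hp : Par w m b n c) (h : Cub (kk w) (kA b * kB b * kC) θ g) (κ : ℂ) :
    hY (algebraMap ℂ L m) (XL L n) (fL c θ) ≠
      algebraMap ℂ L κ * hX (algebraMap ℂ L m) (XL L n) (fL c θ) := by
  intro e
  have h1 := comb_zero (c := c) h (-(3 * kk κ * XK n)) ((kk κ - 1) * XK n)
    ((kk κ - 1) * (3 * (kk m + 2))) (kk m ^ 2 + kk m + 1) (by
    rw [hX, hY] at e
    simp only [map_mul, map_neg, map_add, map_sub, map_one, map_pow, map_ofNat, kk_map]
    rw [XL] at e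
    linear_combination e)
  have hκ : kk κ = 1 := by
    rcases mul_eq_zero.1 h1.2.1 with h2 | h2
    · rcases mul_eq_zero.1 h2 with h3 | h3
      · exact sub_eq_zero.1 h3
      · exact absurd h3 (XK_ne hp.n_ne)
    · exact absurd h2 (fK_ne hp.c_ne)
  have h2 := h1.1
  rw [hκ, XK, fK, kA, kB, kC] at h2
  have h3 : (kk m ^ 2 + kk m + 1) * kk c ^ 3 * tt ^ 2 * (tt ^ 2 - kk b ^ 2)
      + 3 * kk n * (tt ^ 2 - 1) = 0 := by
    have ht := tt_ne
    have ht2 := tt2_ne
    field_simp at h2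
    have h4 : tt ^ 2 * (tt ^ 2 - 1) * ((kk m ^ 2 + kk m + 1) * kk c ^ 3 * tt ^ 2 *
      (tt ^ 2 - kk b ^ 2) + 3 * kk n * (tt ^ 2 - 1)) = 0 := by
      linear_combination h2
    rcases mul_eq_zero.1 h4 with h5 | h5
    · exact absurd h5 (mul_ne_zero (pow_ne_zero _ ht) ht2)
    · exact h5
  have h4 : algebraMap ℂ[X] (RatFunc ℂ) (C ((m ^ 2 + m + 1) * c ^ 3) * X ^ 2 * (X ^ 2 - C (b ^ 2))
      + C (3 * n) * (X ^ 2 - 1)) = 0 := by
    rw [← h3]
    simp only [map_mul, map_add, map_sub, map_pow, map_one, map_ofNat, RatFunc.algebraMap_X, kk_C]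
  refine poly_ne 1 ?_ h4
  simp only [eval_add, eval_mul, eval_C, eval_pow, eval_X, eval_sub, eval_one]
  have : (m ^ 2 + m + 1) * c ^ 3 * (1 - b ^ 2) ≠ 0 :=
    mul_ne_zero (mul_ne_zero hp.hm2 (pow_ne_zero _ hp.c_ne)) (sub_ne_zero.2 (Ne.symm hp.hb1))
  intro h5
  apply this
  linear_combination h5

end core

end TH160
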