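import Mathlib
import Pool.Agent.TH160.Stm
import Pool.Agent.TH160.Tor7
set_option autoImplicit false
namespace TH160
open Polynomial WeierstrassCurve.Affine

theorem exists_cbrt (z : ℂ) : ∃ r : ℂ, r ^ 3 = z := IsAlgClosed.exists_pow_nat_eq z (by norm_num)

section main
variable {L : Type} [Field L] [CharZero L] [Algebra (RatFunc ℂ) L] [Algebra ℂ L]
  [IsScalarTower ℂ (RatFunc ℂ) L]
variable {w m b n c : ℂ} {θ : L} {g : L →ₐ[RatFunc ℂ] L}

theorem wL (hp : Par w m b n c) : (algebraMap ℂ L w) ^ 2 + algebraMap ℂ L w + 1 = 0 := by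
  have := congrArg (algebraMap ℂ L) hp.hw
  simpa only [map_add, map_pow, map_one, map_zero] using this

theorem m_w2 (hp : Par w m b n c) : m - w ^ 2 ≠ 0 := by
  intro h
  apply hp.hm2
  have h1 : m = w ^ 2 := sub_eq_zero.1 h
  rw [h1]
  linear_combination (w ^ 2 - w + 1) * hp.hw

theorem exists_R (hp : Par w m b n c) (h : Cub (kk w) (kA b * kB b * kC) θ g)
    (hgood : Good w m) : ∃ (x y : L) (hxy : (EW L).Nonsingular x y),
      KR (Point.some x y hxy)
        (hG (algebraMap ℂ L m) (algebraMap ℂ L w) (XL L n) (fL c θ) / XL L n) := by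
  have hmem := hesse_mem _ _ _ (relL hp h)
  have h0 := hesse_l0 (algebraMap ℂ L m) (XL L n) (fL c θ)
  have hW := wL (L := L) hp
  have h1 := hesse_l1 (algebraMap ℂ L m) (algebraMap ℂ L w) (XL L n) (fL c θ) hW
  have ha := hX_ne hp h
  have hnc := nonconst hp h
  set M := algebraMap ℂ L m with hM
  set W := algebraMap ℂ L w with hWd
  generalize hX M (XL L n) (fL c θ) = a at hmem h0 h1 ha hnc
  generalize hY M (XL L n) (fL c θ) = b' at hmem h0 h1 hnc
  generalize hZ M (XL L n) (fL c θ) = c' at hmem h0 h1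
  generalize hG M W (XL L n) (fL c θ) = G0 at h1
  have hX0 : XL L n ≠ 0 := XL_ne hp
  have e0 : 1 + (b' / a) ^ 3 + (c' / a) ^ 3 = 3 * M * (b' / a) * (c' / a) := by
    field_simp
    linear_combination hmem
  have hr : b' / a ∉ Set.range (algebraMap ℂ L) := by
    rintro ⟨κ, hκ⟩
    apply hnc κ
    rw [hκ]; field_simp
  obtain ⟨x', y', G, e1, -, hG0, e2⟩ := hgood L (b' / a) (c' / a) e0 hr
  have hs : x' + y' ≠ 0 := by
    intro hs
    have hy : y' = -x' := by linear_combination hs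
    rw [hy] at e1
    have : (1 : L) = 0 := by linear_combination e1
    exact one_ne_zero this
  obtain ⟨ρ, hρ⟩ := exists_cbrt 4
  obtain ⟨γ, hγ⟩ := exists_cbrt (2 * (m - w ^ 2) / (3 * (m - 1)))
  have hm1 : (3 : ℂ) * (m - 1) ≠ 0 := mul_ne_zero (by norm_num) (sub_ne_zero.2 hp.hm1)
  have hγ0 : γ ≠ 0 := by
    rintro rfl
    have h5 : 2 * (m - w ^ 2) / (3 * (m - 1)) ≠ 0 :=
      div_ne_zero (mul_ne_zero (by norm_num) (m_w2 hp)) hm1
    apply h5
    rw [← hγ]; norm_num
  have hρL : (algebraMap ℂ L ρ) ^ 3 = 4 := by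
    rw [← map_pow, hρ, map_ofNat]
  have hγL : 3 * (M - 1) * (algebraMap ℂ L γ) ^ 3 = 2 * (M - W ^ 2) := by
    have h5 : 3 * (m - 1) * γ ^ 3 = 2 * (m - w ^ 2) := by
      rw [hγ, mul_div_cancel₀ _ hm1]
    have := congrArg (algebraMap ℂ L) h5
    simpa only [map_mul, map_sub, map_pow, map_one, map_ofNat] using this
  have hM1 : (3 : L) * (M - 1) ≠ 0 := by
    have := (_root_.map_ne_zero (algebraMap ℂ L)).2 hm1
    simpa only [map_mul, map_sub, map_one, map_ofNat] using this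
  have e3 : (W * x' + W ^ 2 * y') * (3 * (M - 1) * XL L n) =
      (M - W ^ 2) * G0 * (x' + y') * G ^ 3 := by
    have e4 := congrArg (fun z => z * a) e2
    have e5 : (M + b' / a + c' / a) * a = M * a + b' + c' := by field_simp
    have e6 : (M + W * (b' / a) + W ^ 2 * (c' / a)) * a = M * a + W * b' + W ^ 2 * c' := by
      field_simp
    calc (W * x' + W ^ 2 * y') * (3 * (M - 1) * XL L n)
        = (W * x' + W ^ 2 * y') * ((M + b' / a + c' / a) * a) := by rw [e5, h0]
      _ = (M + W * (b' / a) + W ^ 2 * (c' / a)) * a * (x' + y') * G ^ 3 := by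
          linear_combination e4
      _ = _ := by rw [e6, h1]
  have e7 : ((W * x' + W ^ 2 * y') / (x' + y') * 2 + 1) ^ 2 =
      (algebraMap ℂ L ρ / (x' + y')) ^ 3 + 1 := by
    have e8 : (W * x' + W ^ 2 * y') * (W * x' + W ^ 2 * y' + (x' + y')) * (x' + y') = 1 := by
      linear_combination (-1) * e1 + ((x' + y') * (x' ^ 2 + x' * y' * (2 * W - 1) + y' ^ 2 *
        (W ^ 2 - W + 1)) ) * hW
    have e9 : (algebraMap ℂ L ρ / (x' + y')) ^ 3 = 4 * ((W * x' + W ^ 2 * y') / (x' + y')) *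
        ((W * x' + W ^ 2 * y') / (x' + y') + 1) := by
      rw [div_pow, hρL]
      have e10 : W * x' + W ^ 2 * y' = (W * x' + W ^ 2 * y') / (x' + y') * (x' + y') := by
        field_simp
      rw [e10] at e8
      generalize (W * x' + W ^ 2 * y') / (x' + y') = q at e8 ⊢
      rw [div_eq_iff (pow_ne_zero _ hs)]
      linear_combination (-4) * e8
    rw [e9]
    ring
  refine ⟨algebraMap ℂ L ρ / (x' + y'), (W * x' + W ^ 2 * y') / (x' + y') * 2 + 1,
    EW_ns e7, ?_⟩
  refine ⟨algebraMap ℂ L γ * G, mul_ne_zero ((_root_.map_ne_zero _).2 hγ0) hG0, Or.inl ?_⟩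
  field_simp
  apply mul_left_cancel₀ hM1
  linear_combination 2 * e3 - (G0 * (x' + y') * G ^ 3) * hγL

end main

end TH160
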