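import Mathlib
import Pool.Agent.TH160.Stm
import Pool.Agent.TH160.Tor8
set_option autoImplicit false
namespace TH160
open Polynomial WeierstrassCurve.Affine

section main
variable {L : Type} [Field L] [CharZero L] [Algebra (RatFunc ℂ) L] [Algebra ℂ L]
  [IsScalarTower ℂ (RatFunc ℂ) L]
variable {w m b n c : ℂ} {θ : L} {g : L →ₐ[RatFunc ℂ] L}

/-- the auxiliary point `U` -/
theorem exists_U (hp : Par w m b n c) (h : Cub (kk w) (kA b * kB b * kC) θ g) :
    ∃ (x y : L) (hxy : (EW L).Nonsingular x y), g x = algebraMap ℂ L w * x ∧ g y = y ∧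
      KR (Point.some x y hxy) (algebraMap (RatFunc ℂ) L ((tt - kk b) * (tt - 1) / tt)) := by
  have hb1 : b + 1 ≠ 0 := by
    intro h1
    apply hp.hb1
    have : b = -1 := by linear_combination h1
    rw [this]; norm_num
  obtain ⟨ρ, hρ⟩ := exists_cbrt (1 / (b + 1))
  have hρ0 : ρ ≠ 0 := by
    rintro rfl
    have : 1 / (b + 1) ≠ 0 := one_div_ne_zero hb1
    apply this; rw [← hρ]; norm_num
  have hρ' : ρ ^ 3 * (b + 1) = 1 := by rw [hρ]; field_simp
  have hρL : (algebraMap ℂ L ρ) ^ 3 * (algebraMap ℂ L b + 1) = 1 := by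
    have := congrArg (algebraMap ℂ L) hρ'
    simpa only [map_mul, map_add, map_pow, map_one] using this
  have hbL : algebraMap ℂ L b + 1 ≠ 0 := by
    have := (_root_.map_ne_zero (algebraMap ℂ L)).2 hb1
    simpa only [map_add, map_one] using this
  have hT : algebraMap (RatFunc ℂ) L tt ≠ 0 := (_root_.map_ne_zero _).2 tt_ne
  have hθ : θ ^ 3 = (algebraMap (RatFunc ℂ) L tt + algebraMap ℂ L b) *
      (algebraMap (RatFunc ℂ) L tt - 1) * (algebraMap (RatFunc ℂ) L tt - algebraMap ℂ L b) *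
      (algebraMap (RatFunc ℂ) L tt * (algebraMap (RatFunc ℂ) L tt + 1)) := by
    rw [h.hθ, kA, kB, kC]
    simp only [map_mul, map_add, map_sub, map_one, kk_map]
  have gT : g (algebraMap (RatFunc ℂ) L tt) = algebraMap (RatFunc ℂ) L tt := AlgHom.commutes _ _
  have hd : algebraMap (RatFunc ℂ) L ((tt - kk b) * (tt - 1) / tt) =
      (algebraMap (RatFunc ℂ) L tt - algebraMap ℂ L b) * (algebraMap (RatFunc ℂ) L tt - 1) /
      algebraMap (RatFunc ℂ) L tt := by
    simp only [map_div₀, map_mul, map_sub, map_one, kk_map]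
  rw [hd]
  have gb : g (algebraMap ℂ L b) = algebraMap ℂ L b := g_kk b
  have gρ : g (algebraMap ℂ L ρ) = algebraMap ℂ L ρ := g_kk ρ
  have gθ : g θ = algebraMap ℂ L w * θ := by rw [h.hg, kk_map]
  generalize algebraMap (RatFunc ℂ) L tt = T at *
  generalize algebraMap ℂ L b = B at *
  have hρ1 : algebraMap ℂ L ρ ≠ 0 := (_root_.map_ne_zero _).2 hρ0
  generalize algebraMap ℂ L ρ = r at *
  have eq : (r ^ 3 * (T ^ 2 + B) / T) ^ 2 = (r ^ 2 * θ / T) ^ 3 + 1 := by
    have e1 : (r ^ 2 * θ / T) ^ 3 = r ^ 6 * θ ^ 3 / T ^ 3 := by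
      rw [div_pow, mul_pow]; ring
    rw [e1, hθ]
    field_simp
    linear_combination (T ^ 2) * (1 + r ^ 3 * (B + 1)) * hρL
  refine ⟨r ^ 2 * θ / T, r ^ 3 * (T ^ 2 + B) / T, EW_ns eq, ?_, ?_, r, hρ1, Or.inl ?_⟩
  · rw [map_div₀, map_mul, map_pow, gρ, gθ, gT]; ring
  · rw [map_div₀, map_mul, map_pow, map_add, map_pow, gρ, gT, gb]
  · field_simp
    linear_combination T * hρL

variable [DecidableEq L]

/-- the auxiliary constant point `S` -/
theorem exists_S (hp : Par w m b n c) (h : Cub (kk w) (kA b * kB b * kC) θ g)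
    (hFLT : StmFLT) (hDiv : StmDiv) (γ ω : (EW L).Point →+ (EW L).Point)
    (hγ : IsTw (g : L →+* L) 1 γ) (hω : IsTw (RingHom.id L) (algebraMap ℂ L w) ω)
    (T : (EW L).Point) (hT : γ T = T) :
    ∃ S : (EW L).Point, γ S = S ∧ S - ω S = -ω T ∧ KR S 1 := by
  cases T with
  | zero =>
    refine ⟨0, map_zero _, ?_, 1, one_ne_zero, by norm_num⟩
    change (0 : (EW L).Point) - ω 0 = -ω 0
    rw [map_zero]; abel
  | some x y hxy =>
    obtain ⟨h', h1⟩ := hγ.2 x y hxy
    rw [h1] at hT
    injection hT with hx hy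
    rw [one_mul] at hx
    obtain ⟨x0, rfl⟩ := h.fixed x hx
    obtain ⟨y0, rfl⟩ := h.fixed y hy
    have heq : y0 ^ 2 = x0 ^ 3 + 1 := by
      apply (algebraMap (RatFunc ℂ) L).injective
      rw [map_pow, map_add, map_pow, map_one]
      exact EW_eq hxy
    obtain ⟨a0, b0, rfl, rfl⟩ := hFLT x0 y0 heq
    have ea : algebraMap (RatFunc ℂ) L (RatFunc.C a0) = algebraMap ℂ L a0 := kk_map a0
    have eb : algebraMap (RatFunc ℂ) L (RatFunc.C b0) = algebraMap ℂ L b0 := kk_map b0
    obtain ⟨h2, h3⟩ := hω.2 _ _ hxy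
    have h4 : -ω (Point.some _ _ hxy) = Point.some (algebraMap ℂ L (w * a0))
        (algebraMap ℂ L (-b0)) (EW_ns (by
          have := EW_eq hxy
          rw [ea, eb] at this
          have hw3 : (algebraMap ℂ L w) ^ 3 = 1 := by
            linear_combination (algebraMap ℂ L w - 1) * wL (L := L) hp
          rw [map_neg, map_mul]
          linear_combination this - (algebraMap ℂ L a0) ^ 3 * hw3)) := by
      rw [h3]
      rw [Point.neg_some]
      refine pt_ext _ _ ?_ ?_
      · rw [map_mul, ← ea]; rfl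
      · rw [map_neg, ← eb]
        simp [WeierstrassCurve.Affine.negY]
    rw [h4]
    obtain ⟨a', b', h', h5⟩ := hDiv L w hp.hw ω (fun x y h => hω.2 x y h) (w * a0) (-b0) (EW_ns (by
          have := EW_eq hxy
          rw [ea, eb] at this
          have hw3 : (algebraMap ℂ L w) ^ 3 = 1 := by
            linear_combination (algebraMap ℂ L w - 1) * wL (L := L) hp
          rw [map_neg, map_mul]
          linear_combination this - (algebraMap ℂ L a0) ^ 3 * hw3))
    refine ⟨Point.some _ _ h', ?_, h5, ?_⟩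
    · obtain ⟨h6, h7⟩ := hγ.2 _ _ h'
      rw [h7]
      refine pt_ext _ _ ?_ ?_
      · rw [one_mul]; exact g_kk a'
      · exact g_kk b'
    · by_cases hb' : b' = 1
      · obtain ⟨r, hr⟩ := exists_cbrt 2
        refine ⟨algebraMap ℂ L r, ?_, Or.inr ?_⟩
        · rw [_root_.map_ne_zero]
          rintro rfl
          norm_num at hr
        · rw [← map_pow, hr, hb', map_one, map_ofNat]; norm_num
      · obtain ⟨r, hr⟩ := exists_cbrt (b' - 1)
        refine ⟨algebraMap ℂ L r, ?_, Or.inl ?_⟩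
        · rw [_root_.map_ne_zero]
          rintro rfl
          apply hb'
          linear_combination -hr
        · rw [← map_pow, hr, map_sub, map_one, one_mul]

end main

end TH160
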