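import Mathlib
import Pool.Agent.TH160.Stm
import Pool.Agent.TH160.Tor9
set_option autoImplicit false
namespace TH160
open Polynomial WeierstrassCurve.Affine

section main
variable {L : Type} [Field L] [CharZero L] [Algebra (RatFunc ℂ) L] [Algebra ℂ L]
  [IsScalarTower ℂ (RatFunc ℂ) L]
variable {w m b n c : ℂ} {θ : L} {g : L →ₐ[RatFunc ℂ] L}

theorem g_hG (h : Cub (kk w) (kA b * kB b * kC) θ g) :
    g (hG (algebraMap ℂ L m) (algebraMap ℂ L w) (XL L n) (fL c θ)) =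
      hG (algebraMap ℂ L m) (algebraMap ℂ L w) (XL L n) (algebraMap ℂ L w * fL c θ) := by
  simp only [hG, map_sub, map_add, map_mul, map_pow, map_ofNat, map_one, g_kk, g_XL, g_fL h]

theorem key_val (hp : Par w m b n c) :
    ((algebraMap ℂ L m) ^ 2 + algebraMap ℂ L m + 1) * XL L n + 3 * (algebraMap ℂ L m + 2) ^ 3 =
      -3 * (algebraMap ℂ L m + 2) ^ 3 / ((algebraMap (RatFunc ℂ) L tt) ^ 2 - 1) := by
  have hT2 : (algebraMap (RatFunc ℂ) L tt) ^ 2 - 1 ≠ 0 := by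
    rw [← map_pow, ← map_one (algebraMap (RatFunc ℂ) L), ← map_sub]
    exact (_root_.map_ne_zero _).2 tt2_ne
  have e1 : XL L n = -algebraMap ℂ L n * (algebraMap (RatFunc ℂ) L tt) ^ 2 /
      ((algebraMap (RatFunc ℂ) L tt) ^ 2 - 1) := by
    rw [XL, XK]
    simp only [map_div₀, map_mul, map_neg, map_pow, map_sub, map_one, kk_map]
  rw [e1]
  exact key_ne _ _ _ hT2 (by
    have := congrArg (algebraMap ℂ L) hp.hn
    simpa only [map_mul, map_add, map_pow, map_one, map_ofNat] using this)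

theorem hG_ne (hp : Par w m b n c) (h : Cub (kk w) (kA b * kB b * kC) θ g) :
    hG (algebraMap ℂ L m) (algebraMap ℂ L w) (XL L n) (fL c θ) ≠ 0 := by
  intro h0
  have hW := wL (L := L) hp
  have h1 := hesse_l1 (algebraMap ℂ L m) (algebraMap ℂ L w) (XL L n) (fL c θ) hW
  have hmem := hesse_mem _ _ _ (relL hp h)
  rw [h0, mul_zero] at h1
  have hm31 : (algebraMap ℂ L m) ^ 3 - 1 ≠ 0 := by
    have : m ^ 3 - 1 ≠ 0 := by
      have : m ^ 3 - 1 = (m - 1) * (m ^ 2 + m + 1) := by ring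
      rw [this]
      exact mul_ne_zero (sub_ne_zero.2 hp.hm1) hp.hm2
    have := (_root_.map_ne_zero (algebraMap ℂ L)).2 this
    simpa only [map_sub, map_pow, map_one] using this
  have h2 : ((algebraMap ℂ L m) ^ 3 - 1) * hX (algebraMap ℂ L m) (XL L n) (fL c θ) ^ 3 = 0 := by
    generalize hX (algebraMap ℂ L m) (XL L n) (fL c θ) = x at *
    generalize hY (algebraMap ℂ L m) (XL L n) (fL c θ) = y at *
    generalize hZ (algebraMap ℂ L m) (XL L n) (fL c θ) = z at *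
    generalize algebraMap ℂ L m = M at *
    generalize algebraMap ℂ L w = W at *
    have e : (M * x + y + z) * (M * x + W * y + W ^ 2 * z) * (M * x + W ^ 2 * y + W * z) =
        (M ^ 3 - 1) * x ^ 3 := by
      linear_combination hmem + (M^2*x^2*y + M^2*x^2*z + M*W^2*x*y*z + M*W*x*y^2 - M*W*x*y*z
        + M*W*x*z^2 + 3*M*x*y*z + W^2*y^2*z + W^2*y*z^2 + W*y^3 + W*z^3 - y^3 - z^3) * hW
    rw [← e, h1]; ring
  rcases mul_eq_zero.1 h2 with h3 | h3
  · exact hm31 h3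
  · exact hX_ne hp h (pow_eq_zero_iff (by norm_num) |>.1 h3)

/-- the Kummer class of the final point -/
theorem class_eq (hp : Par w m b n c) (h : Cub (kk w) (kA b * kB b * kC) θ g)
    (G0 G1 X : L) (hG0 : G0 = hG (algebraMap ℂ L m) (algebraMap ℂ L w) (XL L n) (fL c θ))
    (hG1 : G1 = hG (algebraMap ℂ L m) (algebraMap ℂ L w) (XL L n) (algebraMap ℂ L w * fL c θ))
    (hXX : X = XL L n) :
    ∃ e : L, e ≠ 0 ∧ (G0 / X * (G1 / X)⁻¹ * 1⁻¹ *
      (algebraMap (RatFunc ℂ) L ((tt - kk b) * (tt - 1) / tt))⁻¹) * e ^ 3 =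
      algebraMap (RatFunc ℂ) L (kC / kB b) := by
  have hW := wL (L := L) hp
  have hcube := hesse_cube _ _ _ _ hW (relL hp h)
  rw [key_val hp, ← hG0, ← hG1] at hcube
  have h0 : G0 ≠ 0 := by rw [hG0]; exact hG_ne hp h
  have h1 : G1 ≠ 0 := by
    rw [hG1, ← g_hG h, ← hG0]
    exact (_root_.map_ne_zero g).2 h0
  have hX : X ≠ 0 := by rw [hXX]; exact XL_ne hp
  have ha : algebraMap ℂ L m + 2 ≠ 0 := by
    have := (_root_.map_ne_zero (algebraMap ℂ L)).2 hp.hm3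
    simpa only [map_add, map_ofNat] using this
  have hT : algebraMap (RatFunc ℂ) L tt ≠ 0 := (_root_.map_ne_zero _).2 tt_ne
  have hT2 : (algebraMap (RatFunc ℂ) L tt) ^ 2 - 1 ≠ 0 := by
    rw [← map_pow, ← map_one (algebraMap (RatFunc ℂ) L), ← map_sub]
    exact (_root_.map_ne_zero _).2 tt2_ne
  have hT1 : (algebraMap (RatFunc ℂ) L tt) - 1 ≠ 0 := by
    intro h2; apply hT2
    linear_combination ((algebraMap (RatFunc ℂ) L tt) + 1) * h2
  have hTb : (algebraMap (RatFunc ℂ) L tt) - algebraMap ℂ L b ≠ 0 := by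
    rw [← kk_map, ← map_sub]
    exact (_root_.map_ne_zero _).2 (tt_sub_ne b)
  have hd : algebraMap (RatFunc ℂ) L ((tt - kk b) * (tt - 1) / tt) =
      (algebraMap (RatFunc ℂ) L tt - algebraMap ℂ L b) * (algebraMap (RatFunc ℂ) L tt - 1) /
      algebraMap (RatFunc ℂ) L tt := by
    simp only [map_div₀, map_mul, map_sub, map_one, kk_map]
  have hd2 : algebraMap (RatFunc ℂ) L (kC / kB b) =
      algebraMap (RatFunc ℂ) L tt * (algebraMap (RatFunc ℂ) L tt + 1) /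
      (algebraMap (RatFunc ℂ) L tt - algebraMap ℂ L b) := by
    rw [kC, kB]
    simp only [map_div₀, map_mul, map_sub, map_add, map_one, kk_map]
  rw [hd, hd2]
  generalize hC (algebraMap ℂ L m) (algebraMap ℂ L w) (XL L n) (fL c θ) = cc at hcube
  generalize algebraMap (RatFunc ℂ) L tt = T at *
  generalize algebraMap ℂ L b = B at *
  generalize algebraMap ℂ L m + 2 = a at *
  have hcc : cc ≠ 0 := by
    rintro rfl
    have h5 : 9 * (-3 * a ^ 3 / (T ^ 2 - 1)) * G0 * G1 ^ 2 ≠ 0 := by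
      refine mul_ne_zero (mul_ne_zero (mul_ne_zero (by norm_num) (div_ne_zero (mul_ne_zero
        (by norm_num) (pow_ne_zero _ ha)) hT2)) h0) (pow_ne_zero _ h1)
    apply h5
    rw [hcube]; norm_num
  refine ⟨-(3 * a * G1 / cc), neg_ne_zero.2 (div_ne_zero (mul_ne_zero (mul_ne_zero (by norm_num)
    ha) h1) hcc), ?_⟩
  field_simp at hcube ⊢
  linear_combination hcube

variable [DecidableEq L]

theorem tor_core (hPhi : StmPhi) (hOm : StmOmega) (hKum : StmKum) (hFLT : StmFLT)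
    (hDiv : StmDiv) (hp : Par w m b n c) (h : Cub (kk w) (kA b * kB b * kC) θ g)
    (hgood : Good w m) :
    ∃ x y z : RatFunc ℂ, (x ≠ 0 ∨ y ≠ 0 ∨ z ≠ 0) ∧
      kA b * x ^ 3 + kB b * y ^ 3 + kC * z ^ 3 = 0 := by
  have hW := wL (L := L) hp
  have hW3 : (algebraMap ℂ L w) ^ 3 = 1 := by
    linear_combination (algebraMap ℂ L w - 1) * hW
  obtain ⟨γ, hγ'⟩ := hPhi L (g : L →+* L) 1 (by norm_num)
  obtain ⟨ω, hω'⟩ := hPhi L (RingHom.id L) (algebraMap ℂ L w) hW3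
  have hγ : IsTw (g : L →+* L) 1 γ := ⟨map_zero γ, hγ'⟩
  have hω : IsTw (RingHom.id L) (algebraMap ℂ L w) ω := ⟨map_zero ω, hω'⟩
  have hgw : g (algebraMap ℂ L w) = algebraMap ℂ L w := g_kk w
  have hcomm : ∀ P, γ (ω P) = ω (γ P) := by
    intro P
    cases P with
    | zero =>
      change γ (ω 0) = ω (γ 0)
      rw [map_zero, map_zero, map_zero]
    | some x y hxy =>
      obtain ⟨h1, e1⟩ := hω.2 x y hxy
      obtain ⟨h2, e2⟩ := hγ.2 _ _ h1
      obtain ⟨h3, e3⟩ := hγ.2 x y hxy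
      obtain ⟨h4, e4⟩ := hω.2 _ _ h3
      rw [e1, e2, e3, e4]
      refine pt_ext _ _ ?_ rfl
      change 1 * g (algebraMap ℂ L w * x) = algebraMap ℂ L w * (1 * g x)
      rw [map_mul, hgw]; ring
  have hg3 : ∀ P, γ (γ (γ P)) = P := by
    intro P
    cases P with
    | zero =>
      change γ (γ (γ 0)) = 0
      rw [map_zero, map_zero, map_zero]
    | some x y hxy =>
      obtain ⟨h1, e1⟩ := hγ.2 x y hxy
      obtain ⟨h2, e2⟩ := hγ.2 _ _ h1
      obtain ⟨h3, e3⟩ := hγ.2 _ _ h2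
      rw [e1, e2, e3]
      refine pt_ext _ _ ?_ ?_
      · change 1 * g (1 * g (1 * g x)) = x
        rw [one_mul, one_mul, one_mul, h.g3]
      · change g (g (g y)) = y
        rw [h.g3]
  have ho : ∀ P, P + ω P + ω (ω P) = 0 :=
    hOm L (algebraMap ℂ L w) hW ω (fun x y h => hω.2 x y h)
  obtain ⟨x1, y1, hxy1, hK1⟩ := exists_R hp h hgood
  obtain ⟨x2, y2, hxy2, hx2, hy2, hK2⟩ := exists_U hp h
  set R : (EW L).Point := Point.some x1 y1 hxy1 with hR
  set U : (EW L).Point := Point.some x2 y2 hxy2 with hU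
  have hUe : γ U = ω U := by
    obtain ⟨h1, e1⟩ := hγ.2 x2 y2 hxy2
    obtain ⟨h2, e2⟩ := hω.2 x2 y2 hxy2
    rw [hU, e1, e2]
    refine pt_ext _ _ ?_ ?_
    · change 1 * g x2 = algebraMap ℂ L w * x2
      rw [one_mul, hx2]
    · exact hy2
  obtain ⟨S, hS1, hS2, hS3⟩ := exists_S hp h hFLT hDiv γ ω hγ hω (R + γ R + γ (γ R)) (by
    rw [map_add, map_add, hg3]; abel)
  have hQ := grp_eigen γ ω hcomm ho R S U hS1 hS2 hUe
  set Q := R - ω (γ R) - S - U with hQd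
  have hXL : XL L n ≠ 0 := XL_ne hp
  have hG0 := hG_ne hp h
  have hG1 : hG (algebraMap ℂ L m) (algebraMap ℂ L w) (XL L n) (algebraMap ℂ L w * fL c θ) ≠ 0 := by
    rw [← g_hG h]
    exact (_root_.map_ne_zero g).2 hG0
  have hd2 : algebraMap (RatFunc ℂ) L ((tt - kk b) * (tt - 1) / tt) ≠ 0 := by
    refine (_root_.map_ne_zero _).2 (div_ne_zero (mul_ne_zero (tt_sub_ne b) ?_) tt_ne)
    have := tt_sub_ne 1
    rwa [kk, map_one] at this
  have k1 : KR (ω (γ R)) (hG (algebraMap ℂ L m) (algebraMap ℂ L w) (XL L n)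
      (algebraMap ℂ L w * fL c θ) / XL L n) := by
    have := KR_tw hω (KR_tw hγ hK1)
    have e : (RingHom.id L) ((g : L →+* L) (hG (algebraMap ℂ L m) (algebraMap ℂ L w) (XL L n)
        (fL c θ) / XL L n)) = hG (algebraMap ℂ L m) (algebraMap ℂ L w) (XL L n)
      (algebraMap ℂ L w * fL c θ) / XL L n := by
      change g (hG (algebraMap ℂ L m) (algebraMap ℂ L w) (XL L n) (fL c θ) / XL L n) = _
      rw [map_div₀, g_hG h, g_XL]
    rw [e] at this
    exact this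
  have h2c : ∃ r : L, r ^ 3 = 2 := by
    obtain ⟨r, hr⟩ := exists_cbrt 2
    exact ⟨algebraMap ℂ L r, by rw [← map_pow, hr, map_ofNat]⟩
  have k2 := hKum L h2c R (-ω (γ R)) _ _ (div_ne_zero hG0 hXL)
    (inv_ne_zero (div_ne_zero hG1 hXL)) hK1 (KR_neg (div_ne_zero hG1 hXL) k1)
  have k3 := hKum L h2c _ (-S) _ _ (mul_ne_zero (div_ne_zero hG0 hXL)
    (inv_ne_zero (div_ne_zero hG1 hXL))) (inv_ne_zero one_ne_zero) k2 (KR_neg one_ne_zero hS3)
  have k4 := hKum L h2c _ (-U) _ _ (mul_ne_zero (mul_ne_zero (div_ne_zero hG0 hXL)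
    (inv_ne_zero (div_ne_zero hG1 hXL))) (inv_ne_zero one_ne_zero)) (inv_ne_zero hd2) k3
    (KR_neg hd2 hK2)
  rw [← sub_eq_add_neg, ← sub_eq_add_neg, ← sub_eq_add_neg, ← hQd] at k4
  obtain ⟨e, he, heq⟩ := class_eq hp h _ _ _ rfl rfl rfl
  have k5 := KR_scale k4 he
  rw [heq] at k5
  obtain ⟨r, hr⟩ := exists_cbrt 2
  refine extract h (kA b) (kB b) kC rfl (kk r) (by rw [← map_pow, hr, map_ofNat]) Q ?_ k5
  intro x y hxy hQx
  rw [hQx] at hQ
  obtain ⟨h1, e1⟩ := hγ.2 x y hxy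
  obtain ⟨h2, e2⟩ := hω.2 x y hxy
  rw [e1, e2] at hQ
  injection hQ with q1 q2
  constructor
  · rw [kk_map, ← one_mul (g x)]
    exact q1
  · exact q2

end main

/-- from rational functions to polynomials -/
theorem clear_denom (A B C : ℂ[X]) (x y z : RatFunc ℂ) (h0 : x ≠ 0 ∨ y ≠ 0 ∨ z ≠ 0)
    (h : algebraMap ℂ[X] (RatFunc ℂ) A * x ^ 3 + algebraMap ℂ[X] (RatFunc ℂ) B * y ^ 3
      + algebraMap ℂ[X] (RatFunc ℂ) C * z ^ 3 = 0) :
    ∃ x y z : ℂ[X], (x ≠ 0 ∨ y ≠ 0 ∨ z ≠ 0) ∧ A * x ^ 3 + B * y ^ 3 + C * z ^ 3 = 0 := by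
  have hd : ∀ q : RatFunc ℂ, algebraMap ℂ[X] (RatFunc ℂ) q.denom ≠ 0 := fun q =>
    RatFunc.algebraMap_ne_zero (RatFunc.denom_ne_zero q)
  have hx : ∀ q : RatFunc ℂ, algebraMap ℂ[X] (RatFunc ℂ) q.num =
      q * algebraMap ℂ[X] (RatFunc ℂ) q.denom := by
    intro q
    have h2 : q = algebraMap ℂ[X] (RatFunc ℂ) q.num / algebraMap ℂ[X] (RatFunc ℂ) q.denom :=
      (RatFunc.num_div_denom q).symm
    rw [eq_div_iff (hd q)] at h2
    exact h2.symm
  have hn : ∀ q : RatFunc ℂ, q ≠ 0 → q.num ≠ 0 := fun q hq => RatFunc.num_ne_zero hq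
  refine ⟨x.num * (y.denom * z.denom), y.num * (x.denom * z.denom),
    z.num * (x.denom * y.denom), ?_, ?_⟩
  · have dx := RatFunc.denom_ne_zero x
    have dy := RatFunc.denom_ne_zero y
    have dz := RatFunc.denom_ne_zero z
    rcases h0 with h1 | h1 | h1
    · exact Or.inl (mul_ne_zero (hn _ h1) (mul_ne_zero dy dz))
    · exact Or.inr (Or.inl (mul_ne_zero (hn _ h1) (mul_ne_zero dx dz)))
    · exact Or.inr (Or.inr (mul_ne_zero (hn _ h1) (mul_ne_zero dx dy)))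
  · apply IsFractionRing.injective ℂ[X] (RatFunc ℂ)
    simp only [map_add, map_mul, map_pow, hx, map_zero]
    linear_combination (algebraMap ℂ[X] (RatFunc ℂ) x.denom * algebraMap ℂ[X] (RatFunc ℂ) y.denom
      * algebraMap ℂ[X] (RatFunc ℂ) z.denom) ^ 3 * h

theorem stmTor (hPhi : StmPhi) (hOm : StmOmega) (hKum : StmKum) (hFLT : StmFLT)
    (hDiv : StmDiv) : StmTor := by
  intro w m b hw hgood hm1 hm2 hm3 hb hb1
  have hm3' : m + 2 ≠ 0 := by
    intro h; apply hm3; linear_combination h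
  obtain ⟨n, hn⟩ : ∃ n : ℂ, n * (m ^ 2 + m + 1) = 3 * (m + 2) ^ 3 :=
    ⟨3 * (m + 2) ^ 3 / (m ^ 2 + m + 1), div_mul_cancel₀ _ hm2⟩
  have hb' : b ^ 2 * (27 - n) = 27 := by
    apply mul_right_cancel₀ hm2
    linear_combination (-3) * hb - b ^ 2 * hn
  obtain ⟨c, hc⟩ := exists_cbrt (n ^ 2 * (27 - n) / (27 * (m + 2) ^ 3))
  have hc' : 27 * (m + 2) ^ 3 * c ^ 3 = n ^ 2 * (27 - n) := by
    rw [hc, mul_div_cancel₀]
    exact mul_ne_zero (by norm_num) (pow_ne_zero _ hm3')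
  have hp : Par w m b n c := ⟨hw, hm1, hm2, hm3', hn, hb', hc', hb1⟩
  have hwK : kk w ^ 2 + kk w + 1 = 0 := by
    have := congrArg (algebraMap ℂ (RatFunc ℂ)) hw
    simpa only [map_add, map_pow, map_one, map_zero] using this
  obtain ⟨L, _, _, θ, g, h⟩ := exists_cub (kk w) (kA b * kB b * kC) hwK (kD_cube b hp.b_ne)
  letI : Algebra ℂ L := ((algebraMap (RatFunc ℂ) L).comp (algebraMap ℂ (RatFunc ℂ))).toAlgebra
  haveI : IsScalarTower ℂ (RatFunc ℂ) L := IsScalarTower.of_algebraMap_eq' rfl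
  haveI : CharZero L := charZero_of_injective_algebraMap (algebraMap (RatFunc ℂ) L).injective
  classical
  obtain ⟨x, y, z, h0, h1⟩ := tor_core hPhi hOm hKum hFLT hDiv hp h hgood
  refine clear_denom ((X + C b) * (X - 1)) (X - C b) (X * (X + 1)) x y z h0 ?_
  simp only [map_mul, map_add, map_sub, map_one, RatFunc.algebraMap_X, kk_C]
  exact h1

end TH160
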