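import Mathlib
import Pool.Agent.TH160.Stm
import Pool.Agent.TH160.Tor10
import Pool.Agent.TH160.LB2
import Pool.Agent.TH182.J325
import Pool.Agent.TH511.J326
import Pool.Agent.TH142.J327
import Pool.Agent.TH553.J328
import Pool.Agent.TH241.J329
import Pool.Agent.TH142.J330
import Pool.Agent.TH511.J331
import Pool.Agent.TH897.J332
import Pool.Agent.TH182.J333
import Pool.Agent.TH182.J334
import Pool.Agent.TH553.J335
import Pool.Agent.TH553.J336
import Pool.Agent.TH182.J337
set_option autoImplicit false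
namespace TH160
open Polynomial

theorem lb : StmLB := stmLB Pool.Agent.TH182.J325.stmDer Pool.Agent.TH182.J325.stmJac
  (Pool.Agent.TH142.J327.stmTrace Pool.Agent.TH511.J326.stmCore) Pool.Agent.TH553.J328.stmLocal
  Pool.Agent.TH241.J329.stmClosed

theorem tor : StmTor := stmTor Pool.Agent.TH182.J333.stmPhi Pool.Agent.TH182.J333.stmOmega
  Pool.Agent.TH182.J333.stmKum Pool.Agent.TH182.J334.stmFLT Pool.Agent.TH182.J334.stmDiv

/-- pull back along `t = (τ² + 4) / (2τ)` -/
theorem pull (b : ℂ) (h : ∃ x y z : ℂ[X], (x ≠ 0 ∨ y ≠ 0 ∨ z ≠ 0) ∧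
      (X + C b) * (X - 1) * x ^ 3 + (X - C b) * y ^ 3 + X * (X + 1) * z ^ 3 = 0) :
    ∃ x y z : ℂ[X], (x ≠ 0 ∨ y ≠ 0 ∨ z ≠ 0) ∧ pA b * x ^ 3 + pB b * y ^ 3 + pC * z ^ 3 = 0 := by
  obtain ⟨x, y, z, h0, h⟩ := h
  set s : RatFunc ℂ := (tt ^ 2 + 4) / (2 * tt) with hs
  have ht : tt ≠ 0 := tt_ne
  have hsC : ¬∃ c, s = RatFunc.C c := by
    rintro ⟨c, hc⟩
    have hc' : s = kk c := hc
    rw [hs, div_eq_iff (mul_ne_zero two_ne_zero ht)] at hc'
    have h1 : algebraMap ℂ[X] (RatFunc ℂ) (X ^ 2 + 4 - C c * (2 * X)) = 0 := by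
      simp only [map_add, map_sub, map_mul, map_pow, map_ofNat, RatFunc.algebraMap_X, kk_C]
      linear_combination hc'
    exact poly_ne 0 (by simp) h1
  have htr : Transcendental ℂ s := RatFunc.transcendental_of_ne_C s hsC
  have hinj : Function.Injective (aeval s : ℂ[X] →ₐ[ℂ] RatFunc ℂ) :=
    transcendental_iff_injective.1 htr
  have hne : ∀ p : ℂ[X], p ≠ 0 → aeval s p ≠ 0 := by
    intro p hp h1
    exact hp (hinj (by rw [h1, map_zero]))
  have h1 := congrArg (aeval s) h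
  simp only [map_add, map_sub, map_mul, map_pow, map_one, aeval_X, aeval_C, map_zero] at h1
  have eA : (s + kk b) * (s - 1) = algebraMap ℂ[X] (RatFunc ℂ) (pA b) / (4 * tt ^ 2) := by
    rw [pA, hs]
    simp only [map_add, map_sub, map_mul, map_pow, map_ofNat, RatFunc.algebraMap_X, kk_C]
    field_simp
    ring
  have eB : (s - kk b) = algebraMap ℂ[X] (RatFunc ℂ) (pB b) / (4 * tt ^ 2) := by
    rw [pB, hs]
    simp only [map_add, map_sub, map_mul, map_pow, map_ofNat, RatFunc.algebraMap_X, kk_C]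
    field_simp
    ring
  have eC : s * (s + 1) = algebraMap ℂ[X] (RatFunc ℂ) pC / (4 * tt ^ 2) := by
    rw [pC, hs]
    simp only [map_add, map_sub, map_mul, map_pow, map_ofNat, RatFunc.algebraMap_X, kk_C]
    field_simp
    ring
  refine clear_denom (pA b) (pB b) pC (aeval s x) (aeval s y) (aeval s z) ?_ ?_
  · rcases h0 with h2 | h2 | h2
    · exact Or.inl (hne _ h2)
    · exact Or.inr (Or.inl (hne _ h2))
    · exact Or.inr (Or.inr (hne _ h2))
  · have h4 : (4 : RatFunc ℂ) * tt ^ 2 ≠ 0 := mul_ne_zero (by norm_num) (pow_ne_zero _ ht)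
    change (s + kk b) * (s - 1) * aeval s x ^ 3 + (s - kk b) * aeval s y ^ 3 +
      s * (s + 1) * aeval s z ^ 3 = 0 at h1
    rw [eA, eB, eC] at h1
    field_simp at h1
    linear_combination h1

end TH160
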