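import Mathlib
import Pool.Agent.TH160.Fin1
set_option autoImplicit false
namespace TH160
open Polynomial

theorem fin_of_cubic {L : Type} [Field L] [Algebra ℂ L] (E : IntermediateField ℂ L)
    (z p0 p3 : L) (h0 : p0 ∈ E) (h3 : p3 ∈ E) (hne : p3 ≠ 0) (h : p0 + p3 * z ^ 3 = 0)
    (htop : IntermediateField.adjoin E {z} = ⊤) :
    Module.Finite E L ∧ Module.finrank E L ≤ 3 := by
  set q : E[X] := C ⟨p0, h0⟩ + C ⟨p3, h3⟩ * X ^ 3 with hq
  have c3 : q.coeff 3 = ⟨p3, h3⟩ := by simp [hq]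
  have hq0 : q ≠ 0 := by
    intro h4
    apply hne
    have : q.coeff 3 = 0 := by rw [h4]; simp
    rw [c3] at this
    exact congrArg Subtype.val this
  have hdeg : q.natDegree ≤ 3 := by
    rw [hq]
    compute_degree
  have haev : aeval z q = 0 := by
    rw [hq]
    simp only [map_add, map_mul, aeval_C, aeval_X, map_pow]
    exact h
  have hint : IsIntegral E z := isAlgebraic_iff_isIntegral.mp ⟨q, hq0, haev⟩
  have hfr : Module.finrank E (IntermediateField.adjoin E {z}) ≤ 3 := by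
    rw [IntermediateField.adjoin.finrank hint]
    exact (natDegree_le_of_dvd (minpoly.dvd E z haev) hq0).trans hdeg
  have hfin : FiniteDimensional E (IntermediateField.adjoin E {z}) :=
    IntermediateField.adjoin.finiteDimensional hint
  rw [htop] at hfr hfin
  have e := (IntermediateField.topEquiv (F := E) (E := L)).toLinearEquiv
  refine ⟨Module.Finite.equiv e, ?_⟩
  rw [← e.finrank_eq]
  exact hfr

theorem deg_three (A B C' : ℂ[X]) (hC : C' ≠ 0) (L : Type) [Field L] [Algebra ℂ L] (t y z : L)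
    (h : AlgebraicIndependent ℂ ![t, y])
    (heq : aeval t A + aeval t B * y ^ 3 + aeval t C' * z ^ 3 = 0)
    (htop : IntermediateField.adjoin ℂ {t, y, z} = ⊤) :
    Module.Finite (IntermediateField.adjoin ℂ {t, y}) L ∧
      Module.finrank (IntermediateField.adjoin ℂ {t, y}) L ≤ 3 := by
  set E := IntermediateField.adjoin ℂ {t, y} with hE
  have hE1 : t ∈ E := IntermediateField.subset_adjoin _ _ (by simp)
  have hE2 : y ∈ E := IntermediateField.subset_adjoin _ _ (by simp)
  have hev : ∀ P : ℂ[X], aeval t P ∈ E := fun P =>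
    Pool.Agent.TH142.J330.aeval_mem' E hE1 P
  have htop2 : IntermediateField.adjoin E {z} = ⊤ := by
    rw [eq_top_iff]
    intro x _
    have hx : x ∈ IntermediateField.adjoin ℂ {t, y, z} := by rw [htop]; trivial
    have hle : IntermediateField.adjoin ℂ {t, y, z} ≤
        (IntermediateField.adjoin E {z}).restrictScalars ℂ := by
      rw [IntermediateField.adjoin_le_iff]
      intro w hw
      rcases hw with rfl | rfl | rfl
      · exact (IntermediateField.adjoin E {z}).algebraMap_mem ⟨w, hE1⟩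
      · exact (IntermediateField.adjoin E {z}).algebraMap_mem ⟨w, hE2⟩
      · exact IntermediateField.subset_adjoin E {w} (by simp)
    exact hle hx
  have ht : Transcendental ℂ t := h.transcendental 0
  exact fin_of_cubic E z _ _ (add_mem (hev A) (mul_mem (hev B) (pow_mem hE2 3))) (hev C')
    (fun h0 => hC (transcendental_iff.1 ht C' h0)) heq htop2

/-- solvability of the cubic over `ℂ(τ)` -/
def Solv (b : ℂ) : Prop := ∃ x y z : ℂ[X], (x ≠ 0 ∨ y ≠ 0 ∨ z ≠ 0) ∧
  pA b * x ^ 3 + pB b * y ^ 3 + pC * z ^ 3 = 0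

theorem irr_val (b : ℂ) (hb : b ∈ Tset) (L : Type) [Field L] [Algebra ℂ L]
    (x : Fin 3 ⊕ Fin 2 → L) (hx : IsFunctionField (Feq b) L x) :
    (Solv b → irr L = 2) ∧ (¬ Solv b → irr L = 3) := by
  obtain ⟨t, y, z, hind, heq, htop⟩ := Pool.Agent.TH182.J337.stmFF b L x hx
  have hN := Pool.Agent.TH553.J336.stmNice b hb
  have hA0 := hN.fin.sA.ne_zero
  have hB0 := hN.fin.sB.ne_zero
  have hC0 := hN.fin.sC.ne_zero
  have hlb := lb _ _ _ hN L t y z hind heq htop
  obtain ⟨f3, r3⟩ := deg_three _ _ _ hC0 L t y z hind heq htop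
  set S := {n | ∃ u v : L, AlgebraicIndependent ℂ ![u, v] ∧
    Module.Finite (IntermediateField.adjoin ℂ {u, v}) L ∧
    Module.finrank (IntermediateField.adjoin ℂ {u, v}) L = n} with hS
  have hirr : irr L = sInf S := rfl
  have h3S : Module.finrank (IntermediateField.adjoin ℂ {t, y}) L ∈ S := ⟨t, y, hind, f3, rfl⟩
  have hmem : sInf S ∈ S := Nat.sInf_mem ⟨_, h3S⟩
  have hle3 : sInf S ≤ 3 := (Nat.sInf_le h3S).trans r3
  obtain ⟨u, v, huv, hfin, hr⟩ := hmem
  have hge : 2 ≤ sInf S := by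
    by_contra hlt
    have := (hlb u v huv hfin (by omega)).1
    omega
  constructor
  · intro hs
    obtain ⟨u', v', huv', hfin', hr'⟩ := Pool.Agent.TH142.J330.stmUB _ _ _ hA0 hB0 hC0 L t y z
      hind heq htop hs
    have h2S : Module.finrank (IntermediateField.adjoin ℂ {u', v'}) L ∈ S :=
      ⟨u', v', huv', hfin', rfl⟩
    have h2 : sInf S ≤ 2 := (Nat.sInf_le h2S).trans hr'
    omega
  · intro hs
    by_contra hne
    exact hs (hlb u v huv hfin (by omega)).2

theorem solv_of_good {w : ℂ} (hw : w ^ 2 + w + 1 = 0) {r : ℝ} (hr : 1 < r)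
    (hg : Good w (r : ℂ)) : ∃ b ∈ Tset, Solv b ∧
      b ^ 2 * ((r : ℂ) - 1) ^ 3 = -9 * ((r : ℂ) ^ 2 + r + 1) := by
  have h1 : (0 : ℝ) < r - 1 := by linarith
  set c : ℝ := Real.sqrt (9 * (r ^ 2 + r + 1) / (r - 1) ^ 3) with hc
  have hpos : (0 : ℝ) < 9 * (r ^ 2 + r + 1) / (r - 1) ^ 3 := by positivity
  have hc2 : c ^ 2 * (r - 1) ^ 3 = 9 * (r ^ 2 + r + 1) := by
    rw [hc, Real.sq_sqrt hpos.le]
    field_simp
  have hc2p : 0 < c ^ 2 := by rw [hc, Real.sq_sqrt hpos.le]; exact hpos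
  have hb2 : (Complex.I * (c : ℂ)) ^ 2 = ((-c ^ 2 : ℝ) : ℂ) := by
    rw [mul_pow, Complex.I_sq]; push_cast; ring
  have hbe : (Complex.I * (c : ℂ)) ^ 2 * ((r : ℂ) - 1) ^ 3 = -9 * ((r : ℂ) ^ 2 + r + 1) := by
    rw [hb2]
    have := congrArg (fun x : ℝ => (x : ℂ)) hc2
    push_cast at this ⊢
    linear_combination -this
  have hne : ∀ a : ℝ, 0 ≤ a → (Complex.I * (c : ℂ)) ^ 2 ≠ (a : ℂ) := by
    intro a ha h
    rw [hb2] at h
    have := Complex.ofReal_injective h
    linarith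
  have hT1 : (Complex.I * (c : ℂ)) ^ 2 ≠ 1 := by
    have := hne 1 (by norm_num); simpa using this
  have hT : Complex.I * (c : ℂ) ∈ Tset := by
    refine ⟨?_, hT1, ?_⟩
    · intro h
      apply hne 0 le_rfl
      rw [h]; simp
    · have := hne 4 (by norm_num); simpa using this
  refine ⟨Complex.I * (c : ℂ), hT, ?_, hbe⟩
  apply pull
  apply tor w (r : ℂ) _ hw hg _ _ _ hbe hT1
  · intro h
    have : r = 1 := by exact_mod_cast h
    linarith
  · intro h
    have h2 : r ^ 2 + r + 1 = 0 := by exact_mod_cast h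
    have : 0 < r ^ 2 + r + 1 := by positivity
    linarith
  · intro h
    have h2 : r = -2 := by exact_mod_cast h
    linarith

theorem exists_omega : ∃ w : ℂ, w ^ 2 + w + 1 = 0 := by
  obtain ⟨s, hs⟩ := IsAlgClosed.exists_pow_nat_eq (-3 : ℂ) (n := 2) (by norm_num)
  refine ⟨(-1 + s) / 2, ?_⟩
  linear_combination hs / 4

theorem infinite_solv : {b ∈ Tset | Solv b}.Infinite := by
  obtain ⟨w, hw⟩ := exists_omega
  have hinf := Pool.Agent.TH897.J332.stmGoodInf w hw
  intro hfin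
  apply hinf
  have hsub : {r : ℝ | 1 < r ∧ Good w (r : ℂ)} ⊆
      ⋃ b ∈ {b ∈ Tset | Solv b}, {r : ℝ | b ^ 2 * ((r : ℂ) - 1) ^ 3 = -9 * ((r : ℂ) ^ 2 + r + 1)} := by
    rintro r ⟨hr, hg⟩
    obtain ⟨b, hb, hs, he⟩ := solv_of_good hw hr hg
    simp only [Set.mem_iUnion]
    exact ⟨b, ⟨hb, hs⟩, he⟩
  refine Set.Finite.subset ?_ hsub
  refine Set.Finite.biUnion hfin ?_
  intro b hb
  set p : ℂ[X] := C (b ^ 2) * (X - 1) ^ 3 + 9 * (X ^ 2 + X + 1) with hp
  have hp0 : p ≠ 0 := by
    intro h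
    have := congrArg (eval 1) h
    rw [hp] at this
    simp at this
    norm_num at this
  have hroots : {z : ℂ | p.IsRoot z}.Finite := by
    have := p.roots.toFinset.finite_toSet
    refine this.subset ?_
    intro z hz
    simp only [Multiset.mem_toFinset, Finset.mem_coe, mem_roots hp0]
    exact hz
  have hpre := hroots.preimage (f := fun r : ℝ => (r : ℂ)) Complex.ofReal_injective.injOn
  refine hpre.subset ?_
  intro r hr
  simp only [Set.mem_preimage, Set.mem_ofPred_eq, IsRoot.def] at hr ⊢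
  rw [hp]
  simp only [eval_add, eval_mul, eval_C, eval_pow, eval_sub, eval_X, eval_one, eval_ofNat]
  linear_combination hr

theorem fifth_mem : (1 / 5 : ℂ) ∈ Tset := by
  refine ⟨by norm_num, by norm_num, by norm_num⟩

theorem fifth_not : ¬ Solv (1 / 5) := by
  rintro ⟨x, y, z, h0, h⟩
  obtain ⟨h1, h2, h3⟩ := Pool.Agent.TH511.J331.stmNS x y z h
  rcases h0 with h | h | h
  · exact h h1
  · exact h h2
  · exact h h3

end TH160
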